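import Pool.Agent.H120R2.CliqueDefs
import Pool.Agent.H122R2.N6.Inv

/-!
From an inequality for 3-graphs to upper bounds for the Turán density of `K_{r+1}^r`, `r = s + 3`:
the links of the sets of `s` vertices in the `r`-graph of non-edges are 3-graphs.
-/

set_option autoImplicit false
set_option maxHeartbeats 1000000
open Finset
open Pool.Agent.H120R2.Clique
open Pool.Agent.H122R2.N6 (Sy Bt)

namespace Pool.Agent.W843.Lnk

section
variable {V : Type} [Fintype V] [DecidableEq V]

/-- zero on the members of `G` -/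
def fe (G : Finset (Finset V)) (A : Finset V) : ℕ := if A ∈ G then 0 else 1

/-- the positions whose deletion gives no member of `G` -/
def bad (G : Finset (Finset V)) {m : ℕ} (x : Fin m → V) : Finset (Fin m) :=
  univ.filter fun i => (univ.erase i).image x ∉ G

theorem mem_bad {G : Finset (Finset V)} {m : ℕ} {x : Fin m → V} {i : Fin m} :
    i ∈ bad G x ↔ (univ.erase i).image x ∉ G := by
  unfold bad; simp

theorem bad_perm (G : Finset (Finset V)) {m : ℕ} (x : Fin m → V) (σ : Equiv.Perm (Fin m)) (i : Fin m) :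
    i ∈ bad G (x ∘ σ) ↔ σ i ∈ bad G x := by
  rw [mem_bad, mem_bad]
  have : (univ.erase i).image (x ∘ σ) = (univ.erase (σ i)).image x := by
    rw [← image_image]
    congr 1
    ext j
    simp only [mem_image, mem_erase, mem_univ, and_true]
    constructor
    · rintro ⟨k, hk, rfl⟩
      exact fun h => hk (σ.injective h)
    · intro h
      exact ⟨σ.symm j, fun h2 => h (by rw [← h2, Equiv.apply_symm_apply]), Equiv.apply_symm_apply _ _⟩
  rw [this]

theorem sum_perm {m : ℕ} (σ : Equiv.Perm (Fin m)) (g : (Fin m → V) → ℤ) :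
    ∑ x : Fin m → V, g (x ∘ σ) = ∑ x : Fin m → V, g x :=
  Equiv.sum_comp (Equiv.arrowCongr σ.symm (Equiv.refl V)) g

/-- the sum for a set of positions depends on its size only -/
theorem sum_J (G : Finset (Finset V)) {m : ℕ} (v : ℕ → ℤ) (J J' : Finset (Fin m)) (h : J.card = J'.card) :
    ∑ x : Fin m → V, v (J' ∩ bad G x).card = ∑ x : Fin m → V, v (J ∩ bad G x).card := by
  set e : {i // i ∈ J} ≃ {i // i ∈ J'} := Finset.equivOfCardEq h with he
  set σ : Equiv.Perm (Fin m) := e.extendSubtype with hσ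
  have h1 : ∀ i, i ∈ J → σ i ∈ J' := fun i hi => e.extendSubtype_mem i hi
  have h2 : ∀ i, i ∉ J → σ i ∉ J' := fun i hi => e.extendSubtype_not_mem i hi
  rw [← sum_perm σ (fun x => v (J ∩ bad G x).card)]
  refine sum_congr rfl fun x _ => ?_
  congr 1
  symm
  refine card_bij (fun i _ => σ i) ?_ ?_ ?_
  · intro i hi
    rw [mem_inter] at hi ⊢
    exact ⟨h1 i hi.1, (bad_perm G x σ i).1 hi.2⟩
  · intro i _ j _ hij
    exact σ.injective hij
  · intro j hj
    rw [mem_inter] at hj
    refine ⟨σ.symm j, ?_, Equiv.apply_symm_apply _ _⟩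
    rw [mem_inter]
    constructor
    · by_contra hc
      have := h2 _ hc
      rw [Equiv.apply_symm_apply] at this
      exact this hj.1
    · rw [bad_perm, Equiv.apply_symm_apply]
      exact hj.2

theorem sum_cons {m : ℕ} (g : (Fin (m + 1) → V) → ℤ) :
    ∑ x : Fin (m + 1) → V, g x = ∑ a : V, ∑ y : Fin m → V, g (Fin.cons a y) := by
  rw [← Equiv.sum_comp (Fin.consEquiv (fun _ : Fin (m + 1) => V)) g, Fintype.sum_prod_type]
  rfl

theorem erase_cons {m : ℕ} (a : V) (y : Fin m → V) :
    (univ.erase (0 : Fin (m + 1))).image (Fin.cons a y : Fin (m + 1) → V) = univ.image y := by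
  ext b
  simp only [mem_image, mem_erase, mem_univ, and_true, true_and]
  constructor
  · rintro ⟨i, hi, rfl⟩
    obtain ⟨j, rfl⟩ := Fin.exists_succ_eq.mpr hi
    exact ⟨j, by simp⟩
  · rintro ⟨j, rfl⟩
    exact ⟨j.succ, Fin.succ_ne_zero j, by simp⟩

theorem erase_cons_succ {m : ℕ} (a : V) (y : Fin m → V) (i : Fin m) :
    (univ.erase i.succ).image (Fin.cons a y : Fin (m + 1) → V) = insert a ((univ.erase i).image y) := by
  ext b
  simp only [mem_image, mem_erase, mem_univ, and_true, mem_insert]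
  constructor
  · rintro ⟨j, hj, rfl⟩
    refine Fin.cases (fun _ => Or.inl rfl) (fun k hk => Or.inr ⟨k, ?_, by simp⟩) j hj
    exact fun h => hk (by rw [h])
  · rintro (rfl | ⟨j, hj, rfl⟩)
    · exact ⟨0, (Fin.succ_ne_zero i).symm, rfl⟩
    · exact ⟨j.succ, fun h => hj (Fin.succ_injective _ h), by simp⟩

/-- the link of `p` -/
def lk (G : Finset (Finset V)) {s : ℕ} (p : Fin s → V) (a b c : V) : ℕ :=
  fe G (insert a (insert b (insert c (univ.image p))))

theorem lk_Sy (G : Finset (Finset V)) {s : ℕ} (p : Fin s → V) : Sy (lk G p) where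
  b x y z := by
    unfold lk fe
    split_ifs
    · exact Or.inl rfl
    · exact Or.inr rfl
  h213 x y z := by unfold lk; rw [Finset.insert_comm]
  h132 x y z := by unfold lk; rw [Finset.insert_comm y z]

theorem image_cons {m : ℕ} (a : V) (y : Fin m → V) :
    (univ : Finset (Fin (m + 1))).image (Fin.cons a y : Fin (m + 1) → V) = insert a (univ.image y) := by
  ext b
  simp only [mem_image, mem_univ, true_and, mem_insert]
  constructor
  · rintro ⟨j, rfl⟩
    exact Fin.cases (Or.inl rfl) (fun k => Or.inr ⟨k, by simp⟩) j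
  · rintro (rfl | ⟨j, rfl⟩)
    · exact ⟨0, rfl⟩
    · exact ⟨j.succ, by simp⟩

theorem zns {m : ℕ} (i : Fin m) : (0 : Fin (m + 1)) ≠ i.succ := (Fin.succ_ne_zero i).symm

/-- the four first positions -/
def J0 (s : ℕ) : Finset (Fin (s + 4)) :=
  insert 0 (insert (Fin.succ 0) (insert (Fin.succ (Fin.succ 0)) {Fin.succ (Fin.succ (Fin.succ 0))}))

theorem nm3 (s : ℕ) : (Fin.succ (Fin.succ 0) : Fin (s + 4)) ∉ ({Fin.succ (Fin.succ (Fin.succ 0))} : Finset (Fin (s + 4))) := by
  rw [mem_singleton]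
  intro h
  exact zns _ (Fin.succ_injective _ (Fin.succ_injective _ h))

theorem nm2 (s : ℕ) : (Fin.succ 0 : Fin (s + 4)) ∉ (insert (Fin.succ (Fin.succ 0)) {Fin.succ (Fin.succ (Fin.succ 0))} : Finset (Fin (s + 4))) := by
  rw [mem_insert, mem_singleton]
  rintro (h | h)
  · exact zns _ (Fin.succ_injective _ h)
  · exact zns _ (Fin.succ_injective _ h)

theorem nm1 (s : ℕ) : (0 : Fin (s + 4)) ∉ (insert (Fin.succ 0) (insert (Fin.succ (Fin.succ 0)) {Fin.succ (Fin.succ (Fin.succ 0))}) : Finset (Fin (s + 4))) := by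
  rw [mem_insert, mem_insert, mem_singleton]
  rintro (h | h | h)
  · exact zns _ h
  · exact zns _ h
  · exact zns _ h

theorem J0_card (s : ℕ) : (J0 s).card = 4 := by
  unfold J0
  rw [card_insert_of_notMem (nm1 s), card_insert_of_notMem (nm2 s), card_insert_of_notMem (nm3 s), card_singleton]

theorem card_fe (G : Finset (Finset V)) {m : ℕ} (x : Fin m → V) (J : Finset (Fin m)) :
    (J ∩ bad G x).card = ∑ i ∈ J, fe G ((univ.erase i).image x) := by
  have : J ∩ bad G x = J.filter fun i => (univ.erase i).image x ∉ G := by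
    ext i
    rw [mem_inter, mem_bad, mem_filter]
  rw [this, card_filter]
  refine sum_congr rfl fun i _ => ?_
  unfold fe
  by_cases h : (univ.erase i).image x ∈ G
  · rw [if_neg (not_not.mpr h), if_pos h]
  · rw [if_pos h, if_neg h]

theorem J0_lk (G : Finset (Finset V)) {s : ℕ} (a b c d : V) (p : Fin s → V) :
    (J0 s ∩ bad G (Fin.cons a (Fin.cons b (Fin.cons c (Fin.cons d p))) : Fin (s + 4) → V)).card
      = lk G p a b c + lk G p a b d + lk G p a c d + lk G p b c d := by
  rw [card_fe]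
  unfold J0
  rw [sum_insert (nm1 s), sum_insert (nm2 s), sum_insert (nm3 s), sum_singleton]
  rw [erase_cons, erase_cons_succ, erase_cons, erase_cons_succ, erase_cons_succ, erase_cons,
    erase_cons_succ, erase_cons_succ, erase_cons_succ, erase_cons]
  rw [image_cons, image_cons, image_cons]
  unfold lk
  ring

/-- the sum for the first four positions is a sum over the links -/
theorem sum_J0 (G : Finset (Finset V)) (s : ℕ) (v : ℕ → ℤ) :
    ∑ x : Fin (s + 4) → V, v (J0 s ∩ bad G x).card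
      = ∑ p : Fin s → V, ∑ a : V, ∑ b : V, ∑ c : V, ∑ d : V,
        v (lk G p a b c + lk G p a b d + lk G p a c d + lk G p b c d) := by
  have h1 : ∑ x : Fin (s + 4) → V, v (J0 s ∩ bad G x).card
      = ∑ a : V, ∑ b : V, ∑ c : V, ∑ d : V, ∑ p : Fin s → V,
        v (lk G p a b c + lk G p a b d + lk G p a c d + lk G p b c d) := by
    rw [sum_cons]
    refine sum_congr rfl fun a _ => ?_
    rw [sum_cons]
    refine sum_congr rfl fun b _ => ?_
    rw [sum_cons]
    refine sum_congr rfl fun c _ => ?_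
    rw [sum_cons]
    refine sum_congr rfl fun d _ => ?_
    refine sum_congr rfl fun p _ => ?_
    rw [J0_lk]
  rw [h1]
  have h2 : ∀ a b c : V, ∑ d : V, ∑ p : Fin s → V,
        v (lk G p a b c + lk G p a b d + lk G p a c d + lk G p b c d)
      = ∑ p : Fin s → V, ∑ d : V, v (lk G p a b c + lk G p a b d + lk G p a c d + lk G p b c d) :=
    fun a b c => sum_comm
  simp only [h2]
  have h3 : ∀ a b : V, ∑ c : V, ∑ p : Fin s → V, ∑ d : V,
        v (lk G p a b c + lk G p a b d + lk G p a c d + lk G p b c d)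
      = ∑ p : Fin s → V, ∑ c : V, ∑ d : V, v (lk G p a b c + lk G p a b d + lk G p a c d + lk G p b c d) :=
    fun a b => sum_comm
  simp only [h3]
  have h4 : ∀ a : V, ∑ b : V, ∑ p : Fin s → V, ∑ c : V, ∑ d : V,
        v (lk G p a b c + lk G p a b d + lk G p a c d + lk G p b c d)
      = ∑ p : Fin s → V, ∑ b : V, ∑ c : V, ∑ d : V, v (lk G p a b c + lk G p a b d + lk G p a c d + lk G p b c d) :=
    fun a => sum_comm
  simp only [h4]
  exact sum_comm

/-- positions: the number of bad positions summed over the tuples -/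
theorem sum_bad (G : Finset (Finset V)) (m : ℕ) :
    ∑ x : Fin (m + 1) → V, ((bad G x).card : ℤ)
      = (m + 1) * ((Fintype.card V : ℤ) * ∑ y : Fin m → V, (fe G (univ.image y) : ℤ)) := by
  have h0 : ∀ i : Fin (m + 1), ∑ x : Fin (m + 1) → V, (fe G ((univ.erase i).image x) : ℤ)
      = (Fintype.card V : ℤ) * ∑ y : Fin m → V, (fe G (univ.image y) : ℤ) := by
    intro i
    have h1 : ∑ x : Fin (m + 1) → V, (fe G ((univ.erase i).image x) : ℤ)
        = ∑ x : Fin (m + 1) → V, (fe G ((univ.erase 0).image x) : ℤ) := by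
      have h2 := sum_J G (fun k => (k : ℤ)) ({0} : Finset (Fin (m + 1))) {i} (by simp)
      simp only [card_fe, sum_singleton] at h2
      exact h2
    rw [h1, sum_cons]
    have h3 : ∀ a : V, ∑ y : Fin m → V, (fe G ((univ.erase 0).image (Fin.cons a y : Fin (m + 1) → V)) : ℤ)
        = ∑ y : Fin m → V, (fe G (univ.image y) : ℤ) :=
      fun a => sum_congr rfl fun y _ => by rw [erase_cons]
    simp only [h3]
    rw [sum_const, card_univ, nsmul_eq_mul]
  have h4 : ∀ x : Fin (m + 1) → V, ((bad G x).card : ℤ) = ∑ i : Fin (m + 1), (fe G ((univ.erase i).image x) : ℤ) := by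
    intro x
    have := card_fe G x univ
    rw [univ_inter] at this
    rw [this]
    push_cast
    rfl
  simp only [h4]
  rw [sum_comm]
  simp only [h0]
  rw [sum_const, card_univ, Fintype.card_fin, nsmul_eq_mul]
  push_cast
  ring

/-- the number of tuples whose set is a member of `G` -/
theorem orders_le {n r : ℕ} (G : Finset (Finset (Fin n))) (hr : ∀ A ∈ G, A.card = r) :
    (r.factorial : ℤ) * G.card ≤ (n : ℤ) ^ r - ∑ y : Fin r → Fin n, (fe G (univ.image y) : ℤ) := by
  have h1 : ∑ y : Fin r → Fin n, (fe G (univ.image y) : ℤ)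
      = (n : ℤ) ^ r - ((univ.filter fun y : Fin r → Fin n => univ.image y ∈ G).card : ℤ) := by
    have h2 : (n : ℤ) ^ r = ∑ y : Fin r → Fin n, (1 : ℤ) := by
      rw [sum_const, card_univ, Fintype.card_fun, Fintype.card_fin, Fintype.card_fin, nsmul_eq_mul]
      push_cast
      ring
    rw [h2, card_filter]
    push_cast
    rw [← sum_sub_distrib]
    refine sum_congr rfl fun y _ => ?_
    unfold fe
    split_ifs <;> norm_num
  rw [h1]
  have h3 : G.card * r.factorial ≤ (univ.filter fun y : Fin r → Fin n => univ.image y ∈ G).card := by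
    rw [card_eq_sum_card_fiberwise (f := fun y : Fin r → Fin n => univ.image y) (t := G)
      (by intro y hy; simpa using hy)]
    rw [← smul_eq_mul, ← sum_const]
    refine sum_le_sum fun A hA => ?_
    have hc := hr A hA
    have h4 : (univ : Finset (Equiv.Perm (Fin r))).card = r.factorial := by
      rw [card_univ, Fintype.card_perm, Fintype.card_fin]
    rw [← h4]
    refine card_le_card_of_injOn (fun σ => fun i => A.orderEmbOfFin hc (σ i)) ?_ ?_
    · intro σ _
      simp only [coe_filter, mem_filter, mem_univ, true_and, Set.mem_setOf_eq]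
      have h5 : univ.image (fun i => A.orderEmbOfFin hc (σ i)) = A := by
        have h6 : (univ : Finset (Fin r)).image (A.orderEmbOfFin hc) = A := image_orderEmbOfFin_univ A hc
        conv_rhs => rw [← h6]
        ext z
        simp only [mem_image, mem_univ, true_and]
        constructor
        · rintro ⟨i, rfl⟩; exact ⟨σ i, rfl⟩
        · rintro ⟨i, rfl⟩; exact ⟨σ.symm i, by rw [Equiv.apply_symm_apply]⟩
      rw [h5]
      exact ⟨hA, rfl⟩
    · intro σ _ τ _ h
      ext i
      have := congrFun h i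
      exact congrArg Fin.val ((A.orderEmbOfFin hc).injective this)
  have h7 : ((G.card * r.factorial : ℕ) : ℤ) ≤ ((univ.filter fun y : Fin r → Fin n => univ.image y ∈ G).card : ℤ) := by
    exact_mod_cast h3
  push_cast at h7
  linarith

/-- every tuple has a bad position -/
theorem cover {n r : ℕ} (hr2 : 2 ≤ r) {G : Finset (Finset (Fin n))} (hr : ∀ A ∈ G, A.card = r)
    (hK : ¬ HasClique G r (r + 1)) (x : Fin (r + 1) → Fin n) : (bad G x).Nonempty := by
  by_contra hcon
  rw [not_nonempty_iff_eq_empty] at hcon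
  have h1 : ∀ i, (univ.erase i).image x ∈ G := by
    intro i
    by_contra h
    have : i ∈ bad G x := mem_bad.mpr h
    rw [hcon] at this
    exact absurd this (notMem_empty i)
  have hce : ∀ i : Fin (r + 1), (univ.erase i : Finset (Fin (r + 1))).card = r := by
    intro i
    rw [card_erase_of_mem (mem_univ i), card_univ, Fintype.card_fin]
    rfl
  have h2 : ∀ i, Set.InjOn x ((univ.erase i : Finset (Fin (r + 1))) : Set (Fin (r + 1))) := by
    intro i
    rw [← card_image_iff, hr _ (h1 i), hce i]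
  have hinj : Function.Injective x := by
    intro i j hij
    by_contra hne
    have hk : ∃ k : Fin (r + 1), k ≠ i ∧ k ≠ j := by
      have hc : ({i, j} : Finset (Fin (r + 1))).card < (univ : Finset (Fin (r + 1))).card := by
        rw [card_univ, Fintype.card_fin]
        exact lt_of_le_of_lt (card_le_two) (by omega)
      obtain ⟨k, -, hk⟩ := exists_mem_notMem_of_card_lt_card hc
      simp only [mem_insert, mem_singleton, not_or] at hk
      exact ⟨k, hk.1, hk.2⟩
    obtain ⟨k, hk1, hk2⟩ := hk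
    exact hne (h2 k (by simp [Ne.symm hk1]) (by simp [Ne.symm hk2]) hij)
  apply hK
  refine ⟨univ.image x, by rw [card_image_of_injective _ hinj, card_univ, Fintype.card_fin], ?_⟩
  intro B hB
  rw [mem_powersetCard] at hB
  obtain ⟨u, -, rfl⟩ := subset_image_iff.mp hB.1
  rw [card_image_of_injective _ hinj] at hB
  have h3 : ∃ i, u = univ.erase i := by
    have h4 : uᶜ.card = 1 := by
      rw [card_compl, hB.2, Fintype.card_fin]
      omega
    obtain ⟨i, hi⟩ := card_eq_one.mp h4
    refine ⟨i, ?_⟩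
    have h5 : u = uᶜᶜ := (compl_compl u).symm
    rw [h5, hi]
    ext j
    simp
  obtain ⟨i, rfl⟩ := h3
  exact h1 i

end

/-- upper bounds for the Turán density from upper bounds for the Turán function -/
theorem density_le {k m : ℕ} {y : ℝ}
    (h : ∀ n : ℕ, 0 < n → (k.factorial : ℝ) * (ex n k m : ℝ) ≤ y * (n : ℝ) ^ k) :
    turanDensity k m ≤ y := by
  have h0 := isEquivalent_choose k
  have h1 : Filter.Tendsto (fun n : ℕ => (k.factorial : ℝ) * (n.choose k : ℝ) / (n : ℝ) ^ k) Filter.atTop (nhds 1) := by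
    have h2 := (Asymptotics.isEquivalent_iff_tendsto_one (by
      filter_upwards [Filter.eventually_gt_atTop 0] with n hn
      have : (0 : ℝ) < (n : ℝ) := by exact_mod_cast hn
      positivity)).1 h0
    refine h2.congr' ?_
    filter_upwards [Filter.eventually_gt_atTop 0] with n hn
    have : (0 : ℝ) < (n : ℝ) := by exact_mod_cast hn
    have hk : (0 : ℝ) < (k.factorial : ℝ) := by exact_mod_cast Nat.factorial_pos k
    simp only [Pi.div_apply]
    field_simp
  have h1' := (ratio_tendsto k m).mul h1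
  rw [mul_one] at h1'
  refine le_of_tendsto h1' ?_
  filter_upwards [Filter.eventually_ge_atTop k, Filter.eventually_gt_atTop 0] with n hn hn0
  have hn' : (0 : ℝ) < (n : ℝ) ^ k := by
    have : (0 : ℝ) < (n : ℝ) := by exact_mod_cast hn0
    positivity
  have hc : (0 : ℝ) < (n.choose k : ℝ) := by exact_mod_cast Nat.choose_pos hn
  have e : (ex n k m : ℝ) / (n.choose k : ℝ) * ((k.factorial : ℝ) * (n.choose k : ℝ) / (n : ℝ) ^ k)
      = (k.factorial : ℝ) * (ex n k m : ℝ) / (n : ℝ) ^ k := by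
    field_simp
  rw [e, div_le_iff₀ hn']
  exact h n hn0

/-- the link inequality: an inequality for 3-graphs gives an upper bound for the number of edges of a
`K_{s+4}^{s+3}`-free `(s+3)`-graph -/
theorem card_le (s : ℕ) (v : ℕ → ℤ) (Vn Vd a0 b0 : ℤ) (hVd : 0 < Vd)
    (h3 : ∀ (n : ℕ), 0 < n → ∀ E : Fin n → Fin n → Fin n → ℕ, Sy E →
      Vd * ∑ a, ∑ b, ∑ c, ∑ d, v (E a b c + E a b d + E a c d + E b c d) ≤ Vn * (n : ℤ) ^ 4)
    (hB : ∀ B : Finset (Fin (s + 4)), B.Nonempty →
      a0 - b0 * B.card ≤ ∑ J ∈ powersetCard 4 (univ : Finset (Fin (s + 4))), v (J ∩ B).card)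
    {n : ℕ} (hn : 0 < n) (G : Finset (Finset (Fin n))) (hr : ∀ A ∈ G, A.card = s + 3)
    (hK : ¬ HasClique G (s + 3) (s + 4)) (hb0 : 0 ≤ b0) :
    Vd * b0 * (s + 4) * (((s + 3).factorial : ℤ) * G.card)
      ≤ (((s + 4).choose 4 : ℤ) * Vn - Vd * a0 + Vd * b0 * (s + 4)) * (n : ℤ) ^ (s + 3) := by
  set N : ℤ := (n : ℤ) with hN
  have hNpos : 0 < N := by rw [hN]; exact_mod_cast hn
  -- the sum over all sets of positions
  have h4 : ∀ J ∈ powersetCard 4 (univ : Finset (Fin (s + 4))),
      Vd * ∑ x : Fin (s + 4) → Fin n, v (J ∩ bad G x).card ≤ Vn * N ^ (s + 4) := by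
    intro J hJ
    rw [mem_powersetCard] at hJ
    rw [sum_J G v (J0 s) J (by rw [J0_card, hJ.2]), sum_J0, mul_sum]
    calc ∑ p : Fin s → Fin n, Vd * ∑ a, ∑ b, ∑ c, ∑ d, v (lk G p a b c + lk G p a b d + lk G p a c d + lk G p b c d)
        ≤ ∑ p : Fin s → Fin n, Vn * (n : ℤ) ^ 4 := sum_le_sum fun p _ => h3 n hn (lk G p) (lk_Sy G p)
      _ = Vn * N ^ (s + 4) := by
          rw [sum_const, card_univ, Fintype.card_fun, Fintype.card_fin, Fintype.card_fin, nsmul_eq_mul, hN]
          push_cast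
          ring
  have h5 : Vd * ∑ x : Fin (s + 4) → Fin n, ∑ J ∈ powersetCard 4 (univ : Finset (Fin (s + 4))), v (J ∩ bad G x).card
      ≤ ((s + 4).choose 4 : ℤ) * (Vn * N ^ (s + 4)) := by
    rw [sum_comm, mul_sum]
    refine le_trans (sum_le_sum h4) (le_of_eq ?_)
    rw [sum_const, card_powersetCard, card_univ, Fintype.card_fin, nsmul_eq_mul]
  have h6 : ∑ x : Fin (s + 4) → Fin n, (a0 - b0 * ((bad G x).card : ℤ))
      ≤ ∑ x : Fin (s + 4) → Fin n, ∑ J ∈ powersetCard 4 (univ : Finset (Fin (s + 4))), v (J ∩ bad G x).card :=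
    sum_le_sum fun x _ => hB _ (cover (by omega) hr hK x)
  rw [sum_sub_distrib, ← mul_sum, sum_bad G (s + 3), sum_const, card_univ, Fintype.card_fun, Fintype.card_fin,
    Fintype.card_fin, nsmul_eq_mul] at h6
  have h7 := orders_le G hr
  set M : ℤ := ∑ y : Fin (s + 3) → Fin n, (fe G (univ.image y) : ℤ) with hM
  have h8 := mul_le_mul_of_nonneg_left h6 hVd.le
  have h9 := le_trans h8 h5
  push_cast at h9
  rw [← hN] at h9 h7
  have h10 : N * (Vd * b0 * (s + 4) * (((s + 3).factorial : ℤ) * G.card))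
      ≤ N * ((((s + 4).choose 4 : ℤ) * Vn - Vd * a0 + Vd * b0 * (s + 4)) * N ^ (s + 3)) := by
    have h11 : 0 ≤ N * (Vd * b0 * ((s : ℤ) + 4)) := by positivity
    have h12 := mul_le_mul_of_nonneg_left h7 h11
    have e1 : N ^ (s + 4) = N * N ^ (s + 3) := by ring
    rw [e1] at h9
    linarith
  exact le_of_mul_le_mul_left h10 hNpos

/-- the density version -/
theorem density_of (s : ℕ) (v : ℕ → ℤ) (Vn Vd a0 b0 : ℤ) (hVd : 0 < Vd) (hb0 : 0 < b0)
    (h3 : ∀ (n : ℕ), 0 < n → ∀ E : Fin n → Fin n → Fin n → ℕ, Sy E →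
      Vd * ∑ a, ∑ b, ∑ c, ∑ d, v (E a b c + E a b d + E a c d + E b c d) ≤ Vn * (n : ℤ) ^ 4)
    (hB : ∀ B : Finset (Fin (s + 4)), B.Nonempty →
      a0 - b0 * B.card ≤ ∑ J ∈ powersetCard 4 (univ : Finset (Fin (s + 4))), v (J ∩ B).card)
    (y : ℝ)
    (hy : ((((s + 4).choose 4 : ℤ) * Vn - Vd * a0 + Vd * b0 * (s + 4) : ℤ) : ℝ) ≤ y * ((Vd * b0 * (s + 4) : ℤ) : ℝ)) :
    turanDensity (s + 3) (s + 4) ≤ y := by
  classical
  refine density_le fun n hn => ?_
  by_contra hcon
  push Not at hcon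
  have hD : (0 : ℝ) < ((Vd * b0 * (s + 4) : ℤ) : ℝ) := by
    have : 0 < Vd * b0 * ((s : ℤ) + 4) := by positivity
    exact_mod_cast this
  have hc0 : ∀ G : Finset (Finset (Fin n)), (∀ A ∈ G, A.card = s + 3) → ¬ HasClique G (s + 3) (s + 4) →
      ((s + 3).factorial : ℝ) * (G.card : ℝ) ≤ y * (n : ℝ) ^ (s + 3) := by
    intro G h1 h2
    have h4 := card_le s v Vn Vd a0 b0 hVd h3 hB hn G h1 h2 hb0.le
    have h5 : ((Vd * b0 * (s + 4) : ℤ) : ℝ) * (((s + 3).factorial : ℝ) * (G.card : ℝ))
        ≤ ((((s + 4).choose 4 : ℤ) * Vn - Vd * a0 + Vd * b0 * (s + 4) : ℤ) : ℝ) * (n : ℝ) ^ (s + 3) := by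
      exact_mod_cast h4
    have hp : (0 : ℝ) ≤ (n : ℝ) ^ (s + 3) := by positivity
    have h6 := mul_le_mul_of_nonneg_right hy hp
    have h7 : ((Vd * b0 * (s + 4) : ℤ) : ℝ) * (((s + 3).factorial : ℝ) * (G.card : ℝ))
        ≤ ((Vd * b0 * (s + 4) : ℤ) : ℝ) * (y * (n : ℝ) ^ (s + 3)) := by
      refine le_trans h5 (le_trans h6 (le_of_eq ?_))
      ring
    exact le_of_mul_le_mul_left h7 hD
  have hne : ((((univ : Finset (Fin n)).powersetCard (s + 3)).powerset).filter
      (fun G => ¬ HasClique G (s + 3) (s + 4))).Nonempty := by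
    refine ⟨∅, ?_⟩
    rw [mem_filter, mem_powerset]
    refine ⟨empty_subset _, ?_⟩
    rintro ⟨A, hA, hs⟩
    have : (A.powersetCard (s + 3)).Nonempty := powersetCard_nonempty.mpr (by omega)
    obtain ⟨x, hx⟩ := this
    exact absurd (hs hx) (by simp)
  obtain ⟨G, hG, he⟩ := Finset.exists_mem_eq_sup _ hne Finset.card
  have h2 : ex n (s + 3) (s + 4) = G.card := by
    unfold ex
    rw [← he]
  rw [mem_filter, mem_powerset] at hG
  have h1 := hc0 G (fun A hA => (mem_powersetCard.mp (hG.1 hA)).2) hG.2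
  rw [h2] at hcon
  linarith

end Pool.Agent.W843.Lnk
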