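import Pool.Agent.W843.Lnk.Link

/-! The sum over the four-element sets depends on the size of the set only. -/

set_option autoImplicit false
open Finset

namespace Pool.Agent.W843.Lnk

theorem sum_B {N : ℕ} (v : ℕ → ℤ) (B B' : Finset (Fin N)) (h : B.card = B'.card) :
    ∑ J ∈ powersetCard 4 (univ : Finset (Fin N)), v (J ∩ B).card
      = ∑ J ∈ powersetCard 4 (univ : Finset (Fin N)), v (J ∩ B').card := by
  classical
  set e : {i // i ∈ B} ≃ {i // i ∈ B'} := Finset.equivOfCardEq h with he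
  set σ : Equiv.Perm (Fin N) := e.extendSubtype with hσ
  have h1 : ∀ i, i ∈ B → σ i ∈ B' := fun i hi => e.extendSubtype_mem i hi
  have h2 : ∀ i, i ∉ B → σ i ∉ B' := fun i hi => e.extendSubtype_not_mem i hi
  refine sum_bij (fun J _ => J.map σ.toEmbedding) ?_ ?_ ?_ ?_
  · intro J hJ
    rw [mem_powersetCard] at hJ ⊢
    exact ⟨subset_univ _, by rw [card_map]; exact hJ.2⟩
  · intro J _ J' _ hh
    exact map_injective _ hh
  · intro J hJ
    rw [mem_powersetCard] at hJ
    refine ⟨J.map σ.symm.toEmbedding, ?_, ?_⟩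
    · rw [mem_powersetCard]
      exact ⟨subset_univ _, by rw [card_map]; exact hJ.2⟩
    · ext i
      simp
  · intro J _
    congr 1
    refine card_bij (fun i _ => σ i) ?_ ?_ ?_
    · intro i hi
      rw [mem_inter] at hi ⊢
      exact ⟨mem_map_of_mem σ.toEmbedding hi.1, h1 i hi.2⟩
    · intro i _ j _ hij
      exact σ.injective hij
    · intro j hj
      rw [mem_inter, mem_map] at hj
      obtain ⟨⟨i, hi, rfl⟩, hj2⟩ := hj
      refine ⟨i, ?_, rfl⟩
      rw [mem_inter]
      refine ⟨hi, ?_⟩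
      by_contra hc
      exact h2 i hc hj2

/-- the first `m` positions -/
def ini (N m : ℕ) : Finset (Fin N) := univ.filter fun i => i.val < m

theorem ini_card {N m : ℕ} (h : m ≤ N) : (ini N m).card = m := by
  unfold ini
  rw [Fin.card_filter_val_lt, min_eq_right h]

theorem hB_of (s : ℕ) (v : ℕ → ℤ) (a0 b0 : ℤ)
    (h : ∀ m : Fin (s + 5), 1 ≤ m.val → a0 - b0 * (m.val : ℤ) ≤
      ∑ J ∈ powersetCard 4 (univ : Finset (Fin (s + 4))), v (J ∩ ini (s + 4) m.val).card) :
    ∀ B : Finset (Fin (s + 4)), B.Nonempty →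
      a0 - b0 * B.card ≤ ∑ J ∈ powersetCard 4 (univ : Finset (Fin (s + 4))), v (J ∩ B).card := by
  intro B hB
  have hc : B.card ≤ s + 4 := by
    have := card_le_univ B
    rwa [Fintype.card_fin] at this
  rw [sum_B v B (ini (s + 4) B.card) (ini_card hc).symm]
  exact h ⟨B.card, by omega⟩ (Nat.one_le_iff_ne_zero.mpr (card_ne_zero_of_mem hB.choose_spec))

end Pool.Agent.W843.Lnk
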