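import Pool.Agent.W846.K54.Leaf
import Pool.Agent.H122R2.N6.Bound

/-! Weights of the five-vertex substructures in the inequality on six vertices. -/

set_option autoImplicit false
set_option maxRecDepth 100000
set_option maxHeartbeats 4000000
open Finset

namespace Pool.Agent.W843.Lnk

open Pool.Agent.H122R2.N6 hiding TB tg walk walk_all chk chk_sound rep_good walk_good leaf_all
open Pool.Agent.W846.K54 (tg walk walk_all)

def cd10 (b012 b013 b023 b123 b014 b024 b124 b034 b134 b234 : ℕ) : ℕ := Nat.add b012 (Nat.add (Nat.mul 2 b013) (Nat.add (Nat.mul 4 b023) (Nat.add (Nat.mul 8 b123) (Nat.add (Nat.mul 16 b014) (Nat.add (Nat.mul 32 b024) (Nat.add (Nat.mul 64 b124) (Nat.add (Nat.mul 128 b034) (Nat.add (Nat.mul 256 b134) (Nat.mul 512 b234)))))))))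

/-- the weight is invariant under the permutations of the five vertices -/
def sym5 (w : ℕ → ℕ) : Bool := B2 fun b012 => B2 fun b013 => B2 fun b023 => B2 fun b123 => B2 fun b014 => B2 fun b024 => B2 fun b124 => B2 fun b034 => B2 fun b134 => B2 fun b234 => and (Nat.beq (w (cd10 b012 b013 b123 b023 b014 b124 b024 b134 b034 b234)) (w (cd10 b012 b013 b023 b123 b014 b024 b124 b034 b134 b234))) (and (Nat.beq (w (cd10 b012 b023 b013 b123 b024 b014 b124 b034 b234 b134)) (w (cd10 b012 b013 b023 b123 b014 b024 b124 b034 b134 b234))) (and (Nat.beq (w (cd10 b013 b012 b023 b123 b014 b034 b134 b024 b124 b234)) (w (cd10 b012 b013 b023 b123 b014 b024 b124 b034 b134 b234))) (Nat.beq (w (cd10 b012 b014 b024 b124 b013 b023 b123 b034 b134 b234)) (w (cd10 b012 b013 b023 b123 b014 b024 b124 b034 b134 b234)))))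

theorem sym5_all {w : ℕ → ℕ} (hw : sym5 w = true) {b012 b013 b023 b123 b014 b024 b124 b034 b134 b234 : ℕ} (h0 : Bt b012) (h1 : Bt b013) (h2 : Bt b023) (h3 : Bt b123) (h4 : Bt b014) (h5 : Bt b024) (h6 : Bt b124) (h7 : Bt b034) (h8 : Bt b134) (h9 : Bt b234) :
    w (cd10 b012 b013 b123 b023 b014 b124 b024 b134 b034 b234) = w (cd10 b012 b013 b023 b123 b014 b024 b124 b034 b134 b234) ∧ w (cd10 b012 b023 b013 b123 b024 b014 b124 b034 b234 b134) = w (cd10 b012 b013 b023 b123 b014 b024 b124 b034 b134 b234) ∧ w (cd10 b013 b012 b023 b123 b014 b034 b134 b024 b124 b234) = w (cd10 b012 b013 b023 b123 b014 b024 b124 b034 b134 b234) ∧ w (cd10 b012 b014 b024 b124 b013 b023 b123 b034 b134 b234) = w (cd10 b012 b013 b023 b123 b014 b024 b124 b034 b134 b234) := by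
  have h := (B2_true (B2_true (B2_true (B2_true (B2_true (B2_true (B2_true (B2_true (B2_true (B2_true hw h0) h1) h2) h3) h4) h5) h6) h7) h8) h9)
  simp only [Bool.and_eq_true] at h
  exact ⟨Nat.eq_of_beq_eq_true h.1, Nat.eq_of_beq_eq_true h.2.1, Nat.eq_of_beq_eq_true h.2.2.1, Nat.eq_of_beq_eq_true h.2.2.2⟩

def s6 (w : ℕ → ℕ) (b012 b013 b023 b123 b014 b024 b124 b034 b134 b234 b015 b025 b125 b035 b135 b235 b045 b145 b245 b345 : ℕ) : ℕ :=
  (Nat.add (w (cd10 b012 b013 b023 b123 b014 b024 b124 b034 b134 b234))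
    (Nat.add (w (cd10 b012 b013 b023 b123 b015 b025 b125 b035 b135 b235))
    (Nat.add (w (cd10 b012 b014 b024 b124 b015 b025 b125 b045 b145 b245))
    (Nat.add (w (cd10 b013 b014 b034 b134 b015 b035 b135 b045 b145 b345))
    (Nat.add (w (cd10 b023 b024 b034 b234 b025 b035 b235 b045 b245 b345))
    (w (cd10 b123 b124 b134 b234 b125 b135 b235 b145 b245 b345)))))))

/-- the inequality for all extensions of a given structure on the first five vertices -/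
def chk5 (w : ℕ → ℕ) (q4 : ℕ → ℕ → ℕ → ℕ) (q2 : ℕ → ℕ → ℕ) (C : ℕ) (b012 b013 b023 b123 b014 b024 b124 b034 b134 b234 : ℕ) : Bool :=
  B2 fun b015 => B2 fun b025 => B2 fun b125 => B2 fun b035 => B2 fun b135 => B2 fun b235 => B2 fun b045 => B2 fun b145 => B2 fun b245 => B2 fun b345 => Nat.ble (Nat.add (s6 w b012 b013 b023 b123 b014 b024 b124 b034 b134 b234 b015 b025 b125 b035 b135 b235 b045 b145 b245 b345) (Nat.add (leaf4 q4 b012 b013 b023 b123 b014 b024 b124 b034 b134 b234 b015 b025 b125 b035 b135 b235 b045 b145 b245 b345) (leaf2 q2 b012 b013 b023 b123 b014 b024 b124 b034 b134 b234 b015 b025 b125 b035 b135 b235 b045 b145 b245 b345))) C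

section
variable {V : Type} {E : V → V → V → ℕ}

def W5 (E : V → V → V → ℕ) (w : ℕ → ℕ) (a b c d e : V) : ℕ := w (cd10 (E a b c) (E a b d) (E a c d) (E b c d) (E a b e) (E a c e) (E b c e) (E a d e) (E b d e) (E c d e))

theorem W5_sw0 (hE : Sy E) {w : ℕ → ℕ} (hw : sym5 w = true) (a b c d e : V) : W5 E w b a c d e = W5 E w a b c d e := by
  have h := (sym5_all hw (hE.b a b c) (hE.b a b d) (hE.b a c d) (hE.b b c d) (hE.b a b e) (hE.b a c e) (hE.b b c e) (hE.b a d e) (hE.b b d e) (hE.b c d e)).1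
  unfold W5
  rw [← h]
  rw [hE.h213 a b c, hE.h213 a b d, hE.h213 a b e]

theorem W5_sw1 (hE : Sy E) {w : ℕ → ℕ} (hw : sym5 w = true) (a b c d e : V) : W5 E w a c b d e = W5 E w a b c d e := by
  have h := (sym5_all hw (hE.b a b c) (hE.b a b d) (hE.b a c d) (hE.b b c d) (hE.b a b e) (hE.b a c e) (hE.b b c e) (hE.b a d e) (hE.b b d e) (hE.b c d e)).2.1
  unfold W5
  rw [← h]
  rw [hE.h132 a b c, hE.h213 b c d, hE.h213 b c e]

theorem W5_sw2 (hE : Sy E) {w : ℕ → ℕ} (hw : sym5 w = true) (a b c d e : V) : W5 E w a b d c e = W5 E w a b c d e := by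
  have h := (sym5_all hw (hE.b a b c) (hE.b a b d) (hE.b a c d) (hE.b b c d) (hE.b a b e) (hE.b a c e) (hE.b b c e) (hE.b a d e) (hE.b b d e) (hE.b c d e)).2.2.1
  unfold W5
  rw [← h]
  rw [hE.h132 a c d, hE.h132 b c d, hE.h213 c d e]

theorem W5_sw3 (hE : Sy E) {w : ℕ → ℕ} (hw : sym5 w = true) (a b c d e : V) : W5 E w a b c e d = W5 E w a b c d e := by
  have h := (sym5_all hw (hE.b a b c) (hE.b a b d) (hE.b a c d) (hE.b b c d) (hE.b a b e) (hE.b a c e) (hE.b b c e) (hE.b a d e) (hE.b b d e) (hE.b c d e)).2.2.2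
  unfold W5
  rw [← h]
  rw [hE.h132 a d e, hE.h132 b d e, hE.h132 c d e]

def S6 (E : V → V → V → ℕ) (w : ℕ → ℕ) (a b c d e f : V) : ℕ :=
  W5 E w b c d e f + W5 E w a c d e f + W5 E w a b d e f + W5 E w a b c e f + W5 E w a b c d f + W5 E w a b c d e

theorem S6_sw0 (hE : Sy E) {w : ℕ → ℕ} (hw : sym5 w = true) (a b c d e f : V) : S6 E w b a c d e f = S6 E w a b c d e f := by
  unfold S6
  rw [W5_sw0 hE hw a b c d e, W5_sw0 hE hw a b c d f, W5_sw0 hE hw a b c e f, W5_sw0 hE hw a b d e f]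
  try ring

theorem S6_sw1 (hE : Sy E) {w : ℕ → ℕ} (hw : sym5 w = true) (a b c d e f : V) : S6 E w a c b d e f = S6 E w a b c d e f := by
  unfold S6
  rw [W5_sw1 hE hw a b c d e, W5_sw1 hE hw a b c d f, W5_sw1 hE hw a b c e f, W5_sw0 hE hw b c d e f]
  try ring

theorem S6_sw2 (hE : Sy E) {w : ℕ → ℕ} (hw : sym5 w = true) (a b c d e f : V) : S6 E w a b d c e f = S6 E w a b c d e f := by
  unfold S6
  rw [W5_sw2 hE hw a b c d e, W5_sw2 hE hw a b c d f, W5_sw1 hE hw a c d e f, W5_sw1 hE hw b c d e f]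
  try ring

theorem S6_sw3 (hE : Sy E) {w : ℕ → ℕ} (hw : sym5 w = true) (a b c d e f : V) : S6 E w a b c e d f = S6 E w a b c d e f := by
  unfold S6
  rw [W5_sw3 hE hw a b c d e, W5_sw2 hE hw a b d e f, W5_sw2 hE hw a c d e f, W5_sw2 hE hw b c d e f]
  try ring

theorem s6_eq (E : V → V → V → ℕ) (w : ℕ → ℕ) (a b c d e f : V) : s6 w (E a b c) (E a b d) (E a c d) (E b c d) (E a b e) (E a c e) (E b c e) (E a d e) (E b d e) (E c d e) (E a b f) (E a c f) (E b c f) (E a d f) (E b d f) (E c d f) (E a e f) (E b e f) (E c e f) (E d e f) = S6 E w a b c d e f := by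
  unfold s6 S6 W5
  simp only [Nat.add_eq]
  ring

def Good5 (E : V → V → V → ℕ) (w : ℕ → ℕ) (q4 : ℕ → ℕ → ℕ → ℕ) (q2 : ℕ → ℕ → ℕ) (C : ℕ) (b012 b013 b023 b123 b014 b024 b124 b034 b134 b234 : ℕ) : Prop :=
  ∀ a b c d e f : V, E a b c = b012 → E a b d = b013 → E a c d = b023 → E b c d = b123 → E a b e = b014 → E a c e = b024 → E b c e = b124 → E a d e = b034 → E b d e = b134 → E c d e = b234 →
    S6 E w a b c d e f + (L4 E q4 a b c d e f + L2 E q2 a b c d e f) ≤ C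

theorem chk5_sound (hE : Sy E) {w : ℕ → ℕ} {q4 : ℕ → ℕ → ℕ → ℕ} {q2 : ℕ → ℕ → ℕ} {C : ℕ} (a b c d e f : V)
    (h : chk5 w q4 q2 C (E a b c) (E a b d) (E a c d) (E b c d) (E a b e) (E a c e) (E b c e) (E a d e) (E b d e) (E c d e) = true) : S6 E w a b c d e f + (K4l E q4 a b c d e f + K2l E q2 a b c d e f) ≤ C := by
  have h2 := Nat.le_of_ble_eq_true (B2_true (B2_true (B2_true (B2_true (B2_true (B2_true (B2_true (B2_true (B2_true (B2_true h (hE.b a b f)) (hE.b a c f)) (hE.b b c f)) (hE.b a d f)) (hE.b b d f)) (hE.b c d f)) (hE.b a e f)) (hE.b b e f)) (hE.b c e f)) (hE.b d e f))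
  rw [s6_eq] at h2
  exact h2

theorem rep_good5 (hE : Sy E) {w : ℕ → ℕ} {q4 : ℕ → ℕ → ℕ → ℕ} {q2 : ℕ → ℕ → ℕ} {C : ℕ}
    (hc : ∀ b012 b013 b023 b123 b014 b024 b124 b034 b134 b234 : ℕ, Bt b012 → Bt b013 → Bt b023 → Bt b123 → Bt b014 → Bt b024 → Bt b124 → Bt b034 → Bt b134 → Bt b234 → tg b012 b013 b023 b123 b014 b024 b124 b034 b134 b234 = 4 → chk5 w q4 q2 C b012 b013 b023 b123 b014 b024 b124 b034 b134 b234 = true)
    (b012 b013 b023 b123 b014 b024 b124 b034 b134 b234 : ℕ) (ht : tg b012 b013 b023 b123 b014 b024 b124 b034 b134 b234 = 4) : Good5 E w q4 q2 C b012 b013 b023 b123 b014 b024 b124 b034 b134 b234 := by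
  intro a b c d e f h0 h1 h2 h3 h4 h5 h6 h7 h8 h9
  subst h0 h1 h2 h3 h4 h5 h6 h7 h8 h9
  have h := hc _ _ _ _ _ _ _ _ _ _ (hE.b _ _ _) (hE.b _ _ _) (hE.b _ _ _) (hE.b _ _ _) (hE.b _ _ _) (hE.b _ _ _) (hE.b _ _ _) (hE.b _ _ _) (hE.b _ _ _) (hE.b _ _ _) ht
  have h2 := chk5_sound hE a b c d e f h
  rwa [K4l_eq E q4 hE.h132 hE.h231 hE.h213 hE.h312, K2l_eq E q2 hE.h132 hE.h231 hE.h213 hE.h312] at h2

theorem good5_sw0 (hE : Sy E) {w : ℕ → ℕ} {q4 : ℕ → ℕ → ℕ → ℕ} {q2 : ℕ → ℕ → ℕ} {C : ℕ}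
    (hw : sym5 w = true) (hs4 : sym4 q4 = true) (hs2 : sym2 q2 = true) (b012 b013 b023 b123 b014 b024 b124 b034 b134 b234 : ℕ)
    (h : Good5 E w q4 q2 C b012 b013 b123 b023 b014 b124 b024 b134 b034 b234) : Good5 E w q4 q2 C b012 b013 b023 b123 b014 b024 b124 b034 b134 b234 := by
  intro a b c d e f h0 h1 h2 h3 h4 h5 h6 h7 h8 h9
  have h' := h b a c d e f ((hE.h213 _ _ _).trans h0) ((hE.h213 _ _ _).trans h1) h3 h2 ((hE.h213 _ _ _).trans h4) h6 h5 h8 h7 h9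
  rwa [S6_sw0 hE hw, L4_sw0 hE hs4, L2_sw0 hE hs2] at h'

theorem good5_sw1 (hE : Sy E) {w : ℕ → ℕ} {q4 : ℕ → ℕ → ℕ → ℕ} {q2 : ℕ → ℕ → ℕ} {C : ℕ}
    (hw : sym5 w = true) (hs4 : sym4 q4 = true) (hs2 : sym2 q2 = true) (b012 b013 b023 b123 b014 b024 b124 b034 b134 b234 : ℕ)
    (h : Good5 E w q4 q2 C b012 b023 b013 b123 b024 b014 b124 b034 b234 b134) : Good5 E w q4 q2 C b012 b013 b023 b123 b014 b024 b124 b034 b134 b234 := by
  intro a b c d e f h0 h1 h2 h3 h4 h5 h6 h7 h8 h9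
  have h' := h a c b d e f ((hE.h132 _ _ _).trans h0) h2 h1 ((hE.h213 _ _ _).trans h3) h5 h4 ((hE.h213 _ _ _).trans h6) h7 h9 h8
  rwa [S6_sw1 hE hw, L4_sw1 hE hs4, L2_sw1 hE hs2] at h'

theorem good5_sw2 (hE : Sy E) {w : ℕ → ℕ} {q4 : ℕ → ℕ → ℕ → ℕ} {q2 : ℕ → ℕ → ℕ} {C : ℕ}
    (hw : sym5 w = true) (hs4 : sym4 q4 = true) (hs2 : sym2 q2 = true) (b012 b013 b023 b123 b014 b024 b124 b034 b134 b234 : ℕ)
    (h : Good5 E w q4 q2 C b013 b012 b023 b123 b014 b034 b134 b024 b124 b234) : Good5 E w q4 q2 C b012 b013 b023 b123 b014 b024 b124 b034 b134 b234 := by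
  intro a b c d e f h0 h1 h2 h3 h4 h5 h6 h7 h8 h9
  have h' := h a b d c e f h1 h0 ((hE.h132 _ _ _).trans h2) ((hE.h132 _ _ _).trans h3) h4 h7 h8 h5 h6 ((hE.h213 _ _ _).trans h9)
  rwa [S6_sw2 hE hw, L4_sw2 hE hs4, L2_sw2 hE hs2] at h'

theorem good5_sw3 (hE : Sy E) {w : ℕ → ℕ} {q4 : ℕ → ℕ → ℕ → ℕ} {q2 : ℕ → ℕ → ℕ} {C : ℕ}
    (hw : sym5 w = true) (hs4 : sym4 q4 = true) (hs2 : sym2 q2 = true) (b012 b013 b023 b123 b014 b024 b124 b034 b134 b234 : ℕ)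
    (h : Good5 E w q4 q2 C b012 b014 b024 b124 b013 b023 b123 b034 b134 b234) : Good5 E w q4 q2 C b012 b013 b023 b123 b014 b024 b124 b034 b134 b234 := by
  intro a b c d e f h0 h1 h2 h3 h4 h5 h6 h7 h8 h9
  have h' := h a b c e d f h0 h4 h5 h6 h1 h2 h3 ((hE.h132 _ _ _).trans h7) ((hE.h132 _ _ _).trans h8) ((hE.h132 _ _ _).trans h9)
  rwa [S6_sw3 hE hw, L4_sw3 hE hs4, L2_sw3 hE hs2] at h'

theorem walk_good5 (hE : Sy E) {w : ℕ → ℕ} {q4 : ℕ → ℕ → ℕ → ℕ} {q2 : ℕ → ℕ → ℕ} {C : ℕ}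
    (hw : sym5 w = true) (hs4 : sym4 q4 = true) (hs2 : sym2 q2 = true)
    (hr : ∀ b012 b013 b023 b123 b014 b024 b124 b034 b134 b234 : ℕ, tg b012 b013 b023 b123 b014 b024 b124 b034 b134 b234 = 4 → Good5 E w q4 q2 C b012 b013 b023 b123 b014 b024 b124 b034 b134 b234) (n : ℕ) :
    ∀ b012 b013 b023 b123 b014 b024 b124 b034 b134 b234 : ℕ, walk n b012 b013 b023 b123 b014 b024 b124 b034 b134 b234 = true → Good5 E w q4 q2 C b012 b013 b023 b123 b014 b024 b124 b034 b134 b234 := by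
  induction n with
  | zero =>
    intro b012 b013 b023 b123 b014 b024 b124 b034 b134 b234 h
    exact hr _ _ _ _ _ _ _ _ _ _ (Nat.eq_of_beq_eq_true h)
  | succ n ih =>
    intro b012 b013 b023 b123 b014 b024 b124 b034 b134 b234 h
    change (cond (Nat.beq (tg b012 b013 b023 b123 b014 b024 b124 b034 b134 b234) 4) true
      (cond (Nat.beq (tg b012 b013 b023 b123 b014 b024 b124 b034 b134 b234) 0) (walk n b012 b013 b123 b023 b014 b124 b024 b134 b034 b234)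
      (cond (Nat.beq (tg b012 b013 b023 b123 b014 b024 b124 b034 b134 b234) 1) (walk n b012 b023 b013 b123 b024 b014 b124 b034 b234 b134)
      (cond (Nat.beq (tg b012 b013 b023 b123 b014 b024 b124 b034 b134 b234) 2) (walk n b013 b012 b023 b123 b014 b034 b134 b024 b124 b234)
      (cond (Nat.beq (tg b012 b013 b023 b123 b014 b024 b124 b034 b134 b234) 3) (walk n b012 b014 b024 b124 b013 b023 b123 b034 b134 b234) false))))) = true at h
    cases h4 : Nat.beq (tg b012 b013 b023 b123 b014 b024 b124 b034 b134 b234) 4 with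
    | true => exact hr _ _ _ _ _ _ _ _ _ _ (Nat.eq_of_beq_eq_true h4)
    | false =>
    rw [h4] at h
    cases h0 : Nat.beq (tg b012 b013 b023 b123 b014 b024 b124 b034 b134 b234) 0 with
    | true => rw [h0] at h; exact good5_sw0 hE hw hs4 hs2 _ _ _ _ _ _ _ _ _ _ (ih _ _ _ _ _ _ _ _ _ _ h)
    | false =>
    rw [h0] at h
    cases h1 : Nat.beq (tg b012 b013 b023 b123 b014 b024 b124 b034 b134 b234) 1 with
    | true => rw [h1] at h; exact good5_sw1 hE hw hs4 hs2 _ _ _ _ _ _ _ _ _ _ (ih _ _ _ _ _ _ _ _ _ _ h)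
    | false =>
    rw [h1] at h
    cases h2 : Nat.beq (tg b012 b013 b023 b123 b014 b024 b124 b034 b134 b234) 2 with
    | true => rw [h2] at h; exact good5_sw2 hE hw hs4 hs2 _ _ _ _ _ _ _ _ _ _ (ih _ _ _ _ _ _ _ _ _ _ h)
    | false =>
    rw [h2] at h
    cases h3 : Nat.beq (tg b012 b013 b023 b123 b014 b024 b124 b034 b134 b234) 3 with
    | true => rw [h3] at h; exact good5_sw3 hE hw hs4 hs2 _ _ _ _ _ _ _ _ _ _ (ih _ _ _ _ _ _ _ _ _ _ h)
    | false =>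
    rw [h3] at h
    simp at h

theorem leaf_all5 (hE : Sy E) {w : ℕ → ℕ} {q4 : ℕ → ℕ → ℕ → ℕ} {q2 : ℕ → ℕ → ℕ} {C : ℕ}
    (hw : sym5 w = true) (hs4 : sym4 q4 = true) (hs2 : sym2 q2 = true)
    (hc : ∀ b012 b013 b023 b123 b014 b024 b124 b034 b134 b234 : ℕ, Bt b012 → Bt b013 → Bt b023 → Bt b123 → Bt b014 → Bt b024 → Bt b124 → Bt b034 → Bt b134 → Bt b234 → tg b012 b013 b023 b123 b014 b024 b124 b034 b134 b234 = 4 → chk5 w q4 q2 C b012 b013 b023 b123 b014 b024 b124 b034 b134 b234 = true)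
    (a b c d e f : V) : S6 E w a b c d e f + (L4 E q4 a b c d e f + L2 E q2 a b c d e f) ≤ C := by
  have hw2 := (B2_true (B2_true (B2_true (B2_true (B2_true (B2_true (B2_true (B2_true (B2_true (B2_true walk_all (hE.b a b c)) (hE.b a b d)) (hE.b a c d)) (hE.b b c d)) (hE.b a b e)) (hE.b a c e)) (hE.b b c e)) (hE.b a d e)) (hE.b b d e)) (hE.b c d e))
  exact walk_good5 hE hw hs4 hs2 (fun b012 b013 b023 b123 b014 b024 b124 b034 b134 b234 h4 => rep_good5 hE hc b012 b013 b023 b123 b014 b024 b124 b034 b134 b234 h4) _ _ _ _ _ _ _ _ _ _ _ hw2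
    a b c d e f rfl rfl rfl rfl rfl rfl rfl rfl rfl rfl

end

section
variable {V : Type} [Fintype V]

def TW (E : V → V → V → ℕ) (w : ℕ → ℕ) : ℤ := ∑ a, ∑ b, ∑ c, ∑ d, ∑ e, (W5 E w a b c d e : ℤ)

theorem sumS6 (E : V → V → V → ℕ) (w : ℕ → ℕ) :
    ∑ x : Fin 6 → V, (S6 E w (x 0) (x 1) (x 2) (x 3) (x 4) (x 5) : ℤ) = 6 * ((Fintype.card V : ℤ) * TW E w) := by
  have h0 : ∑ x : Fin 6 → V, (W5 E w (x 0) (x 1) (x 2) (x 3) (x 4) : ℤ) = (Fintype.card V : ℤ) * TW E w := by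
    rw [conv6 (fun a b c d e _ => (W5 E w a b c d e : ℤ))]
    unfold TW
    simp only [sum_const, card_univ, nsmul_eq_mul, mul_sum]
  have f5 : ∀ i0 i1 i2 i3 i4 i5 : Fin 6, Function.Injective ![i0, i1, i2, i3, i4, i5] →
      ∑ x : Fin 6 → V, (W5 E w (x i0) (x i1) (x i2) (x i3) (x i4) : ℤ)
      = ∑ x : Fin 6 → V, (W5 E w (x 0) (x 1) (x 2) (x 3) (x 4) : ℤ) :=
    fun i0 i1 i2 i3 i4 i5 hg =>
      psum (fun a b c d e _ => (W5 E w a b c d e : ℤ)) ![i0, i1, i2, i3, i4, i5]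
        (Finite.injective_iff_bijective.mp hg)
  simp only [S6, Nat.cast_add, sum_add_distrib]
  rw [f5 1 2 3 4 5 0 (by decide), f5 0 2 3 4 5 1 (by decide), f5 0 1 3 4 5 2 (by decide), f5 0 1 2 4 5 3 (by decide), f5 0 1 2 3 5 4 (by decide), h0]
  ring

theorem bound5 (E : V → V → V → ℕ) (hE : Sy E) (w : ℕ → ℕ) (K K2 C : ℕ) (q4 : ℕ → ℕ → ℕ → ℕ) (W : ℕ → ℕ → ℕ) (l : ℕ → ℕ → ℕ → ℕ)
    (q2 : ℕ → ℕ → ℕ) (W2 : ℕ → ℕ) (l2 : ℕ → ℕ → ℕ) (B O4 O2 : ℤ)
    (hq4 : ∀ c i j, c < 16 → i < 64 → j < 64 → (q4 c i j : ℤ) =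
      ∑ k ∈ range K, (W c k : ℤ) * ((l c i k : ℤ) - B) * ((l c j k : ℤ) - B) + (O4 + 0))
    (hq2 : ∀ i j, i < 16 → j < 16 → (q2 i j : ℤ) =
      ∑ k ∈ range K2, (W2 k : ℤ) * ((l2 i k : ℤ) - B) * ((l2 j k : ℤ) - B) + O2)
    (hleaf : ∀ a b c d e f : V, S6 E w a b c d e f + (L4 E q4 a b c d e f + L2 E q2 a b c d e f) ≤ C) :
    6 * ((Fintype.card V : ℤ) * TW E w) + (15 * O4 + 45 * O2) * (Fintype.card V : ℤ) ^ 6
      ≤ C * (Fintype.card V : ℤ) ^ 6 := by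
  have A4 := lower4 E hE K q4 W l B O4 (fun _ => 0) hq4
  have A2 := lower2 E hE K2 q2 W2 l2 B O2 hq2
  have hz : Sv E (fun _ => 0) = 0 := by unfold Sv; simp
  rw [hz] at A4
  have key : ∑ x : Fin 6 → V, ((S6 E w (x 0) (x 1) (x 2) (x 3) (x 4) (x 5) : ℤ) + ((L4 E q4 (x 0) (x 1) (x 2) (x 3) (x 4) (x 5) : ℤ)
      + (L2 E q2 (x 0) (x 1) (x 2) (x 3) (x 4) (x 5) : ℤ))) ≤ C * (Fintype.card V : ℤ) ^ 6 := by
    calc _ ≤ ∑ x : Fin 6 → V, (C : ℤ) :=
          sum_le_sum fun x _ => by exact_mod_cast hleaf (x 0) (x 1) (x 2) (x 3) (x 4) (x 5)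
      _ = C * (Fintype.card V : ℤ) ^ 6 := by
          rw [sum_const, card_univ, Fintype.card_fun, Fintype.card_fin, nsmul_eq_mul]
          push_cast
          ring
  rw [sum_add_distrib, sum_add_distrib, sumL4 E q4, sumL2 E q2, sumS6 E w] at key
  linarith

end
end Pool.Agent.W843.Lnk
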