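import Pool.Agent.W843.Lnk.Five
import Pool.Agent.W843.Lnk.Link

/-! The graph of the pairs of positions of a 7-tuple whose deletion gives a non-edge of the 5-graph. -/

set_option autoImplicit false
set_option maxRecDepth 100000
set_option maxHeartbeats 4000000
open Finset

namespace Pool.Agent.W843.Lnk.N6s

open Pool.Agent.H122R2.N6 (Sy Bt B2 B2_true or_false_left)
open Pool.Agent.W846.K54 (tg walk walk_all)
open Pool.Agent.H120R2.Clique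
open Pool.Agent.W843.Lnk

def L21 (w : ℕ → ℕ) (e34 e24 e14 e04 e23 e13 e03 e12 e02 e01 e05 e15 e25 e35 e45 : ℕ) : ℕ :=
  (Nat.add (w (cd10 e34 e24 e14 e04 e23 e13 e03 e12 e02 e01))
    (Nat.add (w (cd10 e35 e25 e15 e05 e23 e13 e03 e12 e02 e01))
    (Nat.add (w (cd10 e45 e25 e15 e05 e24 e14 e04 e12 e02 e01))
    (Nat.add (w (cd10 e45 e35 e15 e05 e34 e14 e04 e13 e03 e01))
    (Nat.add (w (cd10 e45 e35 e25 e05 e34 e24 e04 e23 e03 e02))
    (w (cd10 e45 e35 e25 e15 e34 e24 e14 e23 e13 e12)))))))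

def S21 (e34 e24 e14 e04 e23 e13 e03 e12 e02 e01 e05 e15 e25 e35 e45 : ℕ) : ℕ :=
  (Nat.add e34 (Nat.add e24 (Nat.add e14 (Nat.add e04 (Nat.add e23 (Nat.add e13 (Nat.add e03 (Nat.add e12 (Nat.add e02 (Nat.add e01 (Nat.add e05 (Nat.add e15 (Nat.add e25 (Nat.add e35 e45))))))))))))))

def covb (e34 e24 e14 e04 e23 e13 e03 e12 e02 e01 e05 e15 e25 e35 e45 : ℕ) : Bool :=
  (and (Nat.ble 1 (Nat.add e04 (Nat.add e03 (Nat.add e02 (Nat.add e01 e05))))) (and (Nat.ble 1 (Nat.add e14 (Nat.add e13 (Nat.add e12 (Nat.add e01 e15))))) (and (Nat.ble 1 (Nat.add e24 (Nat.add e23 (Nat.add e12 (Nat.add e02 e25))))) (and (Nat.ble 1 (Nat.add e34 (Nat.add e23 (Nat.add e13 (Nat.add e03 e35))))) (and (Nat.ble 1 (Nat.add e34 (Nat.add e24 (Nat.add e14 (Nat.add e04 e45))))) (Nat.ble 1 (Nat.add e05 (Nat.add e15 (Nat.add e25 (Nat.add e35 e45))))))))))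

def Cov (e34 e24 e14 e04 e23 e13 e03 e12 e02 e01 e05 e15 e25 e35 e45 : ℕ) : Prop :=
  1 ≤ e04 + e03 + e02 + e01 + e05 ∧ 1 ≤ e14 + e13 + e12 + e01 + e15 ∧ 1 ≤ e24 + e23 + e12 + e02 + e25 ∧ 1 ≤ e34 + e23 + e13 + e03 + e35 ∧ 1 ≤ e34 + e24 + e14 + e04 + e45 ∧ 1 ≤ e05 + e15 + e25 + e35 + e45

theorem covb_of {e34 e24 e14 e04 e23 e13 e03 e12 e02 e01 e05 e15 e25 e35 e45 : ℕ} (h : Cov e34 e24 e14 e04 e23 e13 e03 e12 e02 e01 e05 e15 e25 e35 e45) : covb e34 e24 e14 e04 e23 e13 e03 e12 e02 e01 e05 e15 e25 e35 e45 = true := by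
  unfold Cov at h
  obtain ⟨h0, h1, h2, h3, h4, h5⟩ := h
  have k : ∀ m : ℕ, 1 ≤ m → Nat.ble 1 m = true := fun m hm => Nat.ble_eq_true_of_le hm
  have q : ∀ {a b : Bool}, a = true → b = true → and a b = true := by
    intro a b ha hb; rw [ha, hb]; rfl
  unfold covb
  refine q (k _ ?_) (q (k _ ?_) (q (k _ ?_) (q (k _ ?_) (q (k _ ?_) (k _ ?_)))))
  · simp only [Nat.add_eq]; omega
  · simp only [Nat.add_eq]; omega
  · simp only [Nat.add_eq]; omega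
  · simp only [Nat.add_eq]; omega
  · simp only [Nat.add_eq]; omega
  · simp only [Nat.add_eq]; omega

def chk7 (w : ℕ → ℕ) (a0 b0 : ℕ) (e34 e24 e14 e04 e23 e13 e03 e12 e02 e01 : ℕ) : Bool :=
  B2 fun e05 => B2 fun e15 => B2 fun e25 => B2 fun e35 => B2 fun e45 => or (not (covb e34 e24 e14 e04 e23 e13 e03 e12 e02 e01 e05 e15 e25 e35 e45)) (Nat.ble a0 (Nat.add (L21 w e34 e24 e14 e04 e23 e13 e03 e12 e02 e01 e05 e15 e25 e35 e45) (Nat.mul b0 (S21 e34 e24 e14 e04 e23 e13 e03 e12 e02 e01 e05 e15 e25 e35 e45))))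

def P7 (w : ℕ → ℕ) (a0 b0 : ℕ) (e34 e24 e14 e04 e23 e13 e03 e12 e02 e01 : ℕ) : Prop :=
  Bt e34 → Bt e24 → Bt e14 → Bt e04 → Bt e23 → Bt e13 → Bt e03 → Bt e12 → Bt e02 → Bt e01 →
  ∀ e05 e15 e25 e35 e45 : ℕ, Bt e05 → Bt e15 → Bt e25 → Bt e35 → Bt e45 → Cov e34 e24 e14 e04 e23 e13 e03 e12 e02 e01 e05 e15 e25 e35 e45 →
    a0 ≤ L21 w e34 e24 e14 e04 e23 e13 e03 e12 e02 e01 e05 e15 e25 e35 e45 + b0 * S21 e34 e24 e14 e04 e23 e13 e03 e12 e02 e01 e05 e15 e25 e35 e45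

theorem P7_rep {w : ℕ → ℕ} {a0 b0 : ℕ}
    (hc : ∀ e34 e24 e14 e04 e23 e13 e03 e12 e02 e01 : ℕ, Bt e34 → Bt e24 → Bt e14 → Bt e04 → Bt e23 → Bt e13 → Bt e03 → Bt e12 → Bt e02 → Bt e01 → tg e34 e24 e14 e04 e23 e13 e03 e12 e02 e01 = 4 → chk7 w a0 b0 e34 e24 e14 e04 e23 e13 e03 e12 e02 e01 = true)
    (e34 e24 e14 e04 e23 e13 e03 e12 e02 e01 : ℕ) (ht : tg e34 e24 e14 e04 e23 e13 e03 e12 e02 e01 = 4) : P7 w a0 b0 e34 e24 e14 e04 e23 e13 e03 e12 e02 e01 := by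
  intro he34 he24 he14 he04 he23 he13 he03 he12 he02 he01 e05 e15 e25 e35 e45 he05 he15 he25 he35 he45 hcov
  have h := hc e34 e24 e14 e04 e23 e13 e03 e12 e02 e01 he34 he24 he14 he04 he23 he13 he03 he12 he02 he01 ht
  have h2 := (B2_true (B2_true (B2_true (B2_true (B2_true h he05) he15) he25) he35) he45)
  have h3 := or_false_left h2 (by rw [covb_of hcov]; rfl)
  have h4 := Nat.le_of_ble_eq_true h3
  exact h4

theorem L21_sw0 {w : ℕ → ℕ} (hw : sym5 w = true) {e34 e24 e14 e04 e23 e13 e03 e12 e02 e01 e05 e15 e25 e35 e45 : ℕ} (he34 : Bt e34) (he24 : Bt e24) (he14 : Bt e14) (he04 : Bt e04) (he23 : Bt e23) (he13 : Bt e13) (he03 : Bt e03) (he12 : Bt e12) (he02 : Bt e02) (he01 : Bt e01) (he05 : Bt e05) (he15 : Bt e15) (he25 : Bt e25) (he35 : Bt e35) (he45 : Bt e45) :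
    L21 w e34 e24 e04 e14 e23 e03 e13 e02 e12 e01 e15 e05 e25 e35 e45 = L21 w e34 e24 e14 e04 e23 e13 e03 e12 e02 e01 e05 e15 e25 e35 e45 := by
  unfold L21
  rw [(sym5_all hw he34 he24 he14 he04 he23 he13 he03 he12 he02 he01).1,
    (sym5_all hw he35 he25 he15 he05 he23 he13 he03 he12 he02 he01).1,
    (sym5_all hw he45 he25 he15 he05 he24 he14 he04 he12 he02 he01).1,
    (sym5_all hw he45 he35 he15 he05 he34 he14 he04 he13 he03 he01).1]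
  simp only [Nat.add_eq]
  ring

theorem S21_sw0 {e34 e24 e14 e04 e23 e13 e03 e12 e02 e01 e05 e15 e25 e35 e45 : ℕ} : S21 e34 e24 e04 e14 e23 e03 e13 e02 e12 e01 e15 e05 e25 e35 e45 = S21 e34 e24 e14 e04 e23 e13 e03 e12 e02 e01 e05 e15 e25 e35 e45 := by
  unfold S21
  simp only [Nat.add_eq]
  ring

theorem Cov_sw0 {e34 e24 e14 e04 e23 e13 e03 e12 e02 e01 e05 e15 e25 e35 e45 : ℕ} (h : Cov e34 e24 e14 e04 e23 e13 e03 e12 e02 e01 e05 e15 e25 e35 e45) : Cov e34 e24 e04 e14 e23 e03 e13 e02 e12 e01 e15 e05 e25 e35 e45 := by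
  unfold Cov at h ⊢
  obtain ⟨h0, h1, h2, h3, h4, h5⟩ := h
  refine ⟨?_, ?_, ?_, ?_, ?_, ?_⟩ <;> omega

theorem P7_sw0 {w : ℕ → ℕ} (hw : sym5 w = true) {a0 b0 : ℕ} (e34 e24 e14 e04 e23 e13 e03 e12 e02 e01 : ℕ)
    (h : P7 w a0 b0 e34 e24 e04 e14 e23 e03 e13 e02 e12 e01) : P7 w a0 b0 e34 e24 e14 e04 e23 e13 e03 e12 e02 e01 := by
  intro he34 he24 he14 he04 he23 he13 he03 he12 he02 he01 e05 e15 e25 e35 e45 he05 he15 he25 he35 he45 hcov
  have h2 := h he34 he24 he04 he14 he23 he03 he13 he02 he12 he01 e15 e05 e25 e35 e45 he15 he05 he25 he35 he45 (Cov_sw0 hcov)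
  rwa [L21_sw0 hw he34 he24 he14 he04 he23 he13 he03 he12 he02 he01 he05 he15 he25 he35 he45, S21_sw0] at h2

theorem L21_sw1 {w : ℕ → ℕ} (hw : sym5 w = true) {e34 e24 e14 e04 e23 e13 e03 e12 e02 e01 e05 e15 e25 e35 e45 : ℕ} (he34 : Bt e34) (he24 : Bt e24) (he14 : Bt e14) (he04 : Bt e04) (he23 : Bt e23) (he13 : Bt e13) (he03 : Bt e03) (he12 : Bt e12) (he02 : Bt e02) (he01 : Bt e01) (he05 : Bt e05) (he15 : Bt e15) (he25 : Bt e25) (he35 : Bt e35) (he45 : Bt e45) :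
    L21 w e34 e14 e24 e04 e13 e23 e03 e12 e01 e02 e05 e25 e15 e35 e45 = L21 w e34 e24 e14 e04 e23 e13 e03 e12 e02 e01 e05 e15 e25 e35 e45 := by
  unfold L21
  rw [(sym5_all hw he34 he24 he14 he04 he23 he13 he03 he12 he02 he01).2.1,
    (sym5_all hw he35 he25 he15 he05 he23 he13 he03 he12 he02 he01).2.1,
    (sym5_all hw he45 he25 he15 he05 he24 he14 he04 he12 he02 he01).2.1,
    (sym5_all hw he45 he35 he25 he15 he34 he24 he14 he23 he13 he12).1]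
  simp only [Nat.add_eq]
  ring

theorem S21_sw1 {e34 e24 e14 e04 e23 e13 e03 e12 e02 e01 e05 e15 e25 e35 e45 : ℕ} : S21 e34 e14 e24 e04 e13 e23 e03 e12 e01 e02 e05 e25 e15 e35 e45 = S21 e34 e24 e14 e04 e23 e13 e03 e12 e02 e01 e05 e15 e25 e35 e45 := by
  unfold S21
  simp only [Nat.add_eq]
  ring

theorem Cov_sw1 {e34 e24 e14 e04 e23 e13 e03 e12 e02 e01 e05 e15 e25 e35 e45 : ℕ} (h : Cov e34 e24 e14 e04 e23 e13 e03 e12 e02 e01 e05 e15 e25 e35 e45) : Cov e34 e14 e24 e04 e13 e23 e03 e12 e01 e02 e05 e25 e15 e35 e45 := by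
  unfold Cov at h ⊢
  obtain ⟨h0, h1, h2, h3, h4, h5⟩ := h
  refine ⟨?_, ?_, ?_, ?_, ?_, ?_⟩ <;> omega

theorem P7_sw1 {w : ℕ → ℕ} (hw : sym5 w = true) {a0 b0 : ℕ} (e34 e24 e14 e04 e23 e13 e03 e12 e02 e01 : ℕ)
    (h : P7 w a0 b0 e34 e14 e24 e04 e13 e23 e03 e12 e01 e02) : P7 w a0 b0 e34 e24 e14 e04 e23 e13 e03 e12 e02 e01 := by
  intro he34 he24 he14 he04 he23 he13 he03 he12 he02 he01 e05 e15 e25 e35 e45 he05 he15 he25 he35 he45 hcov
  have h2 := h he34 he14 he24 he04 he13 he23 he03 he12 he01 he02 e05 e25 e15 e35 e45 he05 he25 he15 he35 he45 (Cov_sw1 hcov)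
  rwa [L21_sw1 hw he34 he24 he14 he04 he23 he13 he03 he12 he02 he01 he05 he15 he25 he35 he45, S21_sw1] at h2

theorem L21_sw2 {w : ℕ → ℕ} (hw : sym5 w = true) {e34 e24 e14 e04 e23 e13 e03 e12 e02 e01 e05 e15 e25 e35 e45 : ℕ} (he34 : Bt e34) (he24 : Bt e24) (he14 : Bt e14) (he04 : Bt e04) (he23 : Bt e23) (he13 : Bt e13) (he03 : Bt e03) (he12 : Bt e12) (he02 : Bt e02) (he01 : Bt e01) (he05 : Bt e05) (he15 : Bt e15) (he25 : Bt e25) (he35 : Bt e35) (he45 : Bt e45) :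
    L21 w e24 e34 e14 e04 e23 e12 e02 e13 e03 e01 e05 e15 e35 e25 e45 = L21 w e34 e24 e14 e04 e23 e13 e03 e12 e02 e01 e05 e15 e25 e35 e45 := by
  unfold L21
  rw [(sym5_all hw he34 he24 he14 he04 he23 he13 he03 he12 he02 he01).2.2.1,
    (sym5_all hw he35 he25 he15 he05 he23 he13 he03 he12 he02 he01).2.2.1,
    (sym5_all hw he45 he35 he25 he05 he34 he24 he04 he23 he03 he02).2.1,
    (sym5_all hw he45 he35 he25 he15 he34 he24 he14 he23 he13 he12).2.1]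
  simp only [Nat.add_eq]
  ring

theorem S21_sw2 {e34 e24 e14 e04 e23 e13 e03 e12 e02 e01 e05 e15 e25 e35 e45 : ℕ} : S21 e24 e34 e14 e04 e23 e12 e02 e13 e03 e01 e05 e15 e35 e25 e45 = S21 e34 e24 e14 e04 e23 e13 e03 e12 e02 e01 e05 e15 e25 e35 e45 := by
  unfold S21
  simp only [Nat.add_eq]
  ring

theorem Cov_sw2 {e34 e24 e14 e04 e23 e13 e03 e12 e02 e01 e05 e15 e25 e35 e45 : ℕ} (h : Cov e34 e24 e14 e04 e23 e13 e03 e12 e02 e01 e05 e15 e25 e35 e45) : Cov e24 e34 e14 e04 e23 e12 e02 e13 e03 e01 e05 e15 e35 e25 e45 := by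
  unfold Cov at h ⊢
  obtain ⟨h0, h1, h2, h3, h4, h5⟩ := h
  refine ⟨?_, ?_, ?_, ?_, ?_, ?_⟩ <;> omega

theorem P7_sw2 {w : ℕ → ℕ} (hw : sym5 w = true) {a0 b0 : ℕ} (e34 e24 e14 e04 e23 e13 e03 e12 e02 e01 : ℕ)
    (h : P7 w a0 b0 e24 e34 e14 e04 e23 e12 e02 e13 e03 e01) : P7 w a0 b0 e34 e24 e14 e04 e23 e13 e03 e12 e02 e01 := by
  intro he34 he24 he14 he04 he23 he13 he03 he12 he02 he01 e05 e15 e25 e35 e45 he05 he15 he25 he35 he45 hcov
  have h2 := h he24 he34 he14 he04 he23 he12 he02 he13 he03 he01 e05 e15 e35 e25 e45 he05 he15 he35 he25 he45 (Cov_sw2 hcov)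
  rwa [L21_sw2 hw he34 he24 he14 he04 he23 he13 he03 he12 he02 he01 he05 he15 he25 he35 he45, S21_sw2] at h2

theorem L21_sw3 {w : ℕ → ℕ} (hw : sym5 w = true) {e34 e24 e14 e04 e23 e13 e03 e12 e02 e01 e05 e15 e25 e35 e45 : ℕ} (he34 : Bt e34) (he24 : Bt e24) (he14 : Bt e14) (he04 : Bt e04) (he23 : Bt e23) (he13 : Bt e13) (he03 : Bt e03) (he12 : Bt e12) (he02 : Bt e02) (he01 : Bt e01) (he05 : Bt e05) (he15 : Bt e15) (he25 : Bt e25) (he35 : Bt e35) (he45 : Bt e45) :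
    L21 w e34 e23 e13 e03 e24 e14 e04 e12 e02 e01 e05 e15 e25 e45 e35 = L21 w e34 e24 e14 e04 e23 e13 e03 e12 e02 e01 e05 e15 e25 e35 e45 := by
  unfold L21
  rw [(sym5_all hw he34 he24 he14 he04 he23 he13 he03 he12 he02 he01).2.2.2,
    (sym5_all hw he45 he35 he15 he05 he34 he14 he04 he13 he03 he01).2.2.1,
    (sym5_all hw he45 he35 he25 he05 he34 he24 he04 he23 he03 he02).2.2.1,
    (sym5_all hw he45 he35 he25 he15 he34 he24 he14 he23 he13 he12).2.2.1]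
  simp only [Nat.add_eq]
  ring

theorem S21_sw3 {e34 e24 e14 e04 e23 e13 e03 e12 e02 e01 e05 e15 e25 e35 e45 : ℕ} : S21 e34 e23 e13 e03 e24 e14 e04 e12 e02 e01 e05 e15 e25 e45 e35 = S21 e34 e24 e14 e04 e23 e13 e03 e12 e02 e01 e05 e15 e25 e35 e45 := by
  unfold S21
  simp only [Nat.add_eq]
  ring

theorem Cov_sw3 {e34 e24 e14 e04 e23 e13 e03 e12 e02 e01 e05 e15 e25 e35 e45 : ℕ} (h : Cov e34 e24 e14 e04 e23 e13 e03 e12 e02 e01 e05 e15 e25 e35 e45) : Cov e34 e23 e13 e03 e24 e14 e04 e12 e02 e01 e05 e15 e25 e45 e35 := by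
  unfold Cov at h ⊢
  obtain ⟨h0, h1, h2, h3, h4, h5⟩ := h
  refine ⟨?_, ?_, ?_, ?_, ?_, ?_⟩ <;> omega

theorem P7_sw3 {w : ℕ → ℕ} (hw : sym5 w = true) {a0 b0 : ℕ} (e34 e24 e14 e04 e23 e13 e03 e12 e02 e01 : ℕ)
    (h : P7 w a0 b0 e34 e23 e13 e03 e24 e14 e04 e12 e02 e01) : P7 w a0 b0 e34 e24 e14 e04 e23 e13 e03 e12 e02 e01 := by
  intro he34 he24 he14 he04 he23 he13 he03 he12 he02 he01 e05 e15 e25 e35 e45 he05 he15 he25 he35 he45 hcov
  have h2 := h he34 he23 he13 he03 he24 he14 he04 he12 he02 he01 e05 e15 e25 e45 e35 he05 he15 he25 he45 he35 (Cov_sw3 hcov)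
  rwa [L21_sw3 hw he34 he24 he14 he04 he23 he13 he03 he12 he02 he01 he05 he15 he25 he35 he45, S21_sw3] at h2

theorem walk_gen54 {P : ℕ → ℕ → ℕ → ℕ → ℕ → ℕ → ℕ → ℕ → ℕ → ℕ → Prop}
    (s0 : ∀ b012 b013 b023 b123 b014 b024 b124 b034 b134 b234 : ℕ, P b012 b013 b123 b023 b014 b124 b024 b134 b034 b234 → P b012 b013 b023 b123 b014 b024 b124 b034 b134 b234)
    (s1 : ∀ b012 b013 b023 b123 b014 b024 b124 b034 b134 b234 : ℕ, P b012 b023 b013 b123 b024 b014 b124 b034 b234 b134 → P b012 b013 b023 b123 b014 b024 b124 b034 b134 b234)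
    (s2 : ∀ b012 b013 b023 b123 b014 b024 b124 b034 b134 b234 : ℕ, P b013 b012 b023 b123 b014 b034 b134 b024 b124 b234 → P b012 b013 b023 b123 b014 b024 b124 b034 b134 b234)
    (s3 : ∀ b012 b013 b023 b123 b014 b024 b124 b034 b134 b234 : ℕ, P b012 b014 b024 b124 b013 b023 b123 b034 b134 b234 → P b012 b013 b023 b123 b014 b024 b124 b034 b134 b234)
    (hr : ∀ b012 b013 b023 b123 b014 b024 b124 b034 b134 b234 : ℕ, tg b012 b013 b023 b123 b014 b024 b124 b034 b134 b234 = 4 → P b012 b013 b023 b123 b014 b024 b124 b034 b134 b234) (n : ℕ) :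
    ∀ b012 b013 b023 b123 b014 b024 b124 b034 b134 b234 : ℕ, walk n b012 b013 b023 b123 b014 b024 b124 b034 b134 b234 = true → P b012 b013 b023 b123 b014 b024 b124 b034 b134 b234 := by
  induction n with
  | zero =>
    intro b012 b013 b023 b123 b014 b024 b124 b034 b134 b234 h
    exact hr _ _ _ _ _ _ _ _ _ _ (Nat.eq_of_beq_eq_true h)
  | succ n ih =>
    intro b012 b013 b023 b123 b014 b024 b124 b034 b134 b234 h
    change (cond (Nat.beq (tg b012 b013 b023 b123 b014 b024 b124 b034 b134 b234) 4) true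
      (cond (Nat.beq (tg b012 b013 b023 b123 b014 b024 b124 b034 b134 b234) 0) (walk n b012 b013 b123 b023 b014 b124 b024 b134 b034 b234)
      (cond (Nat.beq (tg b012 b013 b023 b123 b014 b024 b124 b034 b134 b234) 1) (walk n b012 b023 b013 b123 b024 b014 b124 b034 b234 b134)
      (cond (Nat.beq (tg b012 b013 b023 b123 b014 b024 b124 b034 b134 b234) 2) (walk n b013 b012 b023 b123 b014 b034 b134 b024 b124 b234)
      (cond (Nat.beq (tg b012 b013 b023 b123 b014 b024 b124 b034 b134 b234) 3) (walk n b012 b014 b024 b124 b013 b023 b123 b034 b134 b234) false))))) = true at h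
    cases h4 : Nat.beq (tg b012 b013 b023 b123 b014 b024 b124 b034 b134 b234) 4 with
    | true => exact hr _ _ _ _ _ _ _ _ _ _ (Nat.eq_of_beq_eq_true h4)
    | false =>
    rw [h4] at h
    cases h0 : Nat.beq (tg b012 b013 b023 b123 b014 b024 b124 b034 b134 b234) 0 with
    | true => rw [h0] at h; exact s0 _ _ _ _ _ _ _ _ _ _ (ih _ _ _ _ _ _ _ _ _ _ h)
    | false =>
    rw [h0] at h
    cases h1 : Nat.beq (tg b012 b013 b023 b123 b014 b024 b124 b034 b134 b234) 1 with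
    | true => rw [h1] at h; exact s1 _ _ _ _ _ _ _ _ _ _ (ih _ _ _ _ _ _ _ _ _ _ h)
    | false =>
    rw [h1] at h
    cases h2 : Nat.beq (tg b012 b013 b023 b123 b014 b024 b124 b034 b134 b234) 2 with
    | true => rw [h2] at h; exact s2 _ _ _ _ _ _ _ _ _ _ (ih _ _ _ _ _ _ _ _ _ _ h)
    | false =>
    rw [h2] at h
    cases h3 : Nat.beq (tg b012 b013 b023 b123 b014 b024 b124 b034 b134 b234) 3 with
    | true => rw [h3] at h; exact s3 _ _ _ _ _ _ _ _ _ _ (ih _ _ _ _ _ _ _ _ _ _ h)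
    | false =>
    rw [h3] at h
    simp at h

theorem all7 {w : ℕ → ℕ} (hw : sym5 w = true) {a0 b0 : ℕ}
    (hc : ∀ e34 e24 e14 e04 e23 e13 e03 e12 e02 e01 : ℕ, Bt e34 → Bt e24 → Bt e14 → Bt e04 → Bt e23 → Bt e13 → Bt e03 → Bt e12 → Bt e02 → Bt e01 → tg e34 e24 e14 e04 e23 e13 e03 e12 e02 e01 = 4 → chk7 w a0 b0 e34 e24 e14 e04 e23 e13 e03 e12 e02 e01 = true)
    {e34 e24 e14 e04 e23 e13 e03 e12 e02 e01 : ℕ} (he34 : Bt e34) (he24 : Bt e24) (he14 : Bt e14) (he04 : Bt e04) (he23 : Bt e23) (he13 : Bt e13) (he03 : Bt e03) (he12 : Bt e12) (he02 : Bt e02) (he01 : Bt e01) : P7 w a0 b0 e34 e24 e14 e04 e23 e13 e03 e12 e02 e01 :=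
  walk_gen54 (P := P7 w a0 b0) (P7_sw0 hw) (P7_sw1 hw) (P7_sw2 hw) (P7_sw3 hw) (P7_rep hc) _ e34 e24 e14 e04 e23 e13 e03 e12 e02 e01 (B2_true (B2_true (B2_true (B2_true (B2_true (B2_true (B2_true (B2_true (B2_true (B2_true walk_all he34) he24) he14) he04) he23) he13) he03) he12) he02) he01)

section
variable {V : Type} [Fintype V] [DecidableEq V]

/-- zero if the five positions other than `i`, `j` give a member of `G` -/
def ee (G : Finset (Finset V)) (x : Fin 6 → V) (i j : Fin 6) : ℕ := fe G (((univ.erase i).erase j).image x)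

omit [Fintype V] in
theorem ee_b (G : Finset (Finset V)) (x : Fin 6 → V) (i j : Fin 6) : Bt (ee G x i j) := by
  unfold ee fe
  split_ifs
  · exact Or.inl rfl
  · exact Or.inr rfl

omit [Fintype V] in
theorem ee_comm (G : Finset (Finset V)) (x : Fin 6 → V) (i j : Fin 6) : ee G x i j = ee G x j i := by
  unfold ee
  rw [erase_right_comm]

omit [Fintype V] in
theorem ee_perm (G : Finset (Finset V)) (x : Fin 6 → V) (σ : Equiv.Perm (Fin 6)) (i j : Fin 6) :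
    ee G (x ∘ σ) i j = ee G x (σ i) (σ j) := by
  unfold ee
  congr 1
  rw [← image_image]
  congr 1
  ext k
  simp only [mem_image, mem_erase, mem_univ, and_true]
  constructor
  · rintro ⟨m, hm, rfl⟩
    exact ⟨fun h => hm.1 (σ.injective h), fun h => hm.2 (σ.injective h)⟩
  · intro h
    exact ⟨σ.symm k, ⟨fun h2 => h.1 (by rw [← h2, Equiv.apply_symm_apply]), fun h2 => h.2 (by rw [← h2, Equiv.apply_symm_apply])⟩, Equiv.apply_symm_apply _ _⟩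

omit [Fintype V] in
theorem ee_eq (G : Finset (Finset V)) (x : Fin 6 → V) (i j a b c d : Fin 6)
    (h : ((univ.erase i).erase j : Finset (Fin 6)) = {a, b, c, d}) :
    ee G x i j = fe G {x a, x b, x c, x d} := by
  unfold ee
  rw [h]
  simp only [image_insert, image_singleton]

def g0 (G : Finset (Finset V)) (w : ℕ → ℕ) (x : Fin 6 → V) : ℤ :=
  (w (cd10 (ee G x 3 4) (ee G x 2 4) (ee G x 1 4) (ee G x 0 4) (ee G x 2 3) (ee G x 1 3) (ee G x 0 3) (ee G x 1 2) (ee G x 0 2) (ee G x 0 1)) : ℤ)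

theorem perm_code (G : Finset (Finset V)) (w : ℕ → ℕ) (i0 i1 i2 i3 i4 i5 : Fin 6)
    (hg : Function.Injective ![i0, i1, i2, i3, i4, i5]) :
    ∑ x : Fin 6 → V, (w (cd10 (ee G x i3 i4) (ee G x i2 i4) (ee G x i1 i4) (ee G x i0 i4) (ee G x i2 i3) (ee G x i1 i3) (ee G x i0 i3) (ee G x i1 i2) (ee G x i0 i2) (ee G x i0 i1)) : ℤ) = ∑ x : Fin 6 → V, g0 G w x := by
  rw [← sum_perm (Equiv.ofBijective _ (Finite.injective_iff_bijective.mp hg)) (g0 G w)]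
  refine sum_congr rfl fun x _ => ?_
  unfold g0
  simp only [ee_perm]
  rfl

theorem perm_pair (G : Finset (Finset V)) (i0 i1 i2 i3 i4 i5 : Fin 6)
    (hg : Function.Injective ![i0, i1, i2, i3, i4, i5]) :
    ∑ x : Fin 6 → V, (ee G x i0 i1 : ℤ) = ∑ x : Fin 6 → V, (ee G x 0 1 : ℤ) := by
  rw [← sum_perm (Equiv.ofBijective _ (Finite.injective_iff_bijective.mp hg)) (fun x => (ee G x 0 1 : ℤ))]
  refine sum_congr rfl fun x _ => ?_
  simp only [ee_perm]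
  rfl

omit [Fintype V] in
theorem g0_cons (G : Finset (Finset V)) (w : ℕ → ℕ) (a b c d e : V) (p : Fin 1 → V) :
    g0 G w (Fin.cons a (Fin.cons b (Fin.cons c (Fin.cons d (Fin.cons e p)))) : Fin 6 → V)
      = (W5 (lk G p) w a b c d e : ℤ) := by
  have hp : (univ : Finset (Fin 1)).image p = {p 0} := by
    have : (univ : Finset (Fin 1)) = {0} := rfl
    rw [this, image_singleton]
  unfold g0 W5 lk
  rw [hp, ee_eq G _ 3 4 0 1 2 5 (by decide), ee_eq G _ 2 4 0 1 3 5 (by decide), ee_eq G _ 1 4 0 2 3 5 (by decide), ee_eq G _ 0 4 1 2 3 5 (by decide), ee_eq G _ 2 3 0 1 4 5 (by decide), ee_eq G _ 1 3 0 2 4 5 (by decide), ee_eq G _ 0 3 1 2 4 5 (by decide), ee_eq G _ 1 2 0 3 4 5 (by decide), ee_eq G _ 0 2 1 3 4 5 (by decide), ee_eq G _ 0 1 2 3 4 5 (by decide)]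
  rfl

theorem sum_g0 (G : Finset (Finset V)) (w : ℕ → ℕ) :
    ∑ x : Fin 6 → V, g0 G w x = ∑ p : Fin 1 → V, TW (lk G p) w := by
  have h1 : ∑ x : Fin 6 → V, g0 G w x
      = ∑ a : V, ∑ b : V, ∑ c : V, ∑ d : V, ∑ e : V, ∑ p : Fin 1 → V, (W5 (lk G p) w a b c d e : ℤ) := by
    rw [sum_cons]
    refine sum_congr rfl fun a _ => ?_
    rw [sum_cons]
    refine sum_congr rfl fun b _ => ?_
    rw [sum_cons]
    refine sum_congr rfl fun c _ => ?_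
    rw [sum_cons]
    refine sum_congr rfl fun d _ => ?_
    rw [sum_cons]
    refine sum_congr rfl fun e _ => ?_
    refine sum_congr rfl fun p _ => ?_
    exact g0_cons G w a b c d e p
  rw [h1]
  have h2 : ∀ a b c d : V, ∑ e : V, ∑ p : Fin 1 → V, (W5 (lk G p) w a b c d e : ℤ)
      = ∑ p : Fin 1 → V, ∑ e : V, (W5 (lk G p) w a b c d e : ℤ) := fun a b c d => sum_comm
  simp only [h2]
  have h3 : ∀ a b c : V, ∑ d : V, ∑ p : Fin 1 → V, ∑ e : V, (W5 (lk G p) w a b c d e : ℤ)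
      = ∑ p : Fin 1 → V, ∑ d : V, ∑ e : V, (W5 (lk G p) w a b c d e : ℤ) := fun a b c => sum_comm
  simp only [h3]
  have h4 : ∀ a b : V, ∑ c : V, ∑ p : Fin 1 → V, ∑ d : V, ∑ e : V, (W5 (lk G p) w a b c d e : ℤ)
      = ∑ p : Fin 1 → V, ∑ c : V, ∑ d : V, ∑ e : V, (W5 (lk G p) w a b c d e : ℤ) := fun a b => sum_comm
  simp only [h4]
  have h5 : ∀ a : V, ∑ b : V, ∑ p : Fin 1 → V, ∑ c : V, ∑ d : V, ∑ e : V, (W5 (lk G p) w a b c d e : ℤ)
      = ∑ p : Fin 1 → V, ∑ b : V, ∑ c : V, ∑ d : V, ∑ e : V, (W5 (lk G p) w a b c d e : ℤ) := fun a => sum_comm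
  simp only [h5]
  exact sum_comm

theorem sum_pair (G : Finset (Finset V)) :
    ∑ x : Fin 6 → V, (ee G x 0 1 : ℤ) = (Fintype.card V : ℤ) ^ 2 * ∑ y : Fin 4 → V, (fe G (univ.image y) : ℤ) := by
  rw [sum_cons]
  have h1 : ∀ a : V, ∑ y : Fin 5 → V, (ee G (Fin.cons a y : Fin 6 → V) 0 1 : ℤ)
      = (Fintype.card V : ℤ) * ∑ y : Fin 4 → V, (fe G (univ.image y) : ℤ) := by
    intro a
    rw [sum_cons]
    have h2 : ∀ b : V, ∑ y : Fin 4 → V, (ee G (Fin.cons a (Fin.cons b y : Fin 5 → V) : Fin 6 → V) 0 1 : ℤ)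
        = ∑ y : Fin 4 → V, (fe G (univ.image y) : ℤ) := by
      intro b
      refine sum_congr rfl fun y _ => ?_
      have hy : (univ : Finset (Fin 4)).image y = {y 0, y 1, y 2, y 3} := by
        have : (univ : Finset (Fin 4)) = {0, 1, 2, 3} := rfl
        rw [this]
        simp only [image_insert, image_singleton]
      rw [hy, ee_eq G _ 0 1 2 3 4 5 (by decide)]
      rfl
    simp only [h2]
    rw [sum_const, card_univ, nsmul_eq_mul]
  simp only [h1]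
  rw [sum_const, card_univ, nsmul_eq_mul]
  ring

end

theorem cov_pos {n : ℕ} {G : Finset (Finset (Fin n))} (hr : ∀ A ∈ G, A.card = 4) (hK : ¬ HasClique G 4 5)
    (x : Fin 6 → Fin n) (i : Fin 6) : ∃ j, j ≠ i ∧ ee G x i j = 1 := by
  obtain ⟨k, hk⟩ := cover (r := 4) (by norm_num) hr hK (x ∘ i.succAbove)
  rw [mem_bad] at hk
  refine ⟨i.succAbove k, Fin.succAbove_ne i k, ?_⟩
  have h1 : ((univ.erase i).erase (i.succAbove k)).image x = (univ.erase k).image (x ∘ i.succAbove) := by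
    rw [← image_image]
    congr 1
    ext m
    simp only [mem_image, mem_erase, mem_univ, and_true]
    constructor
    · rintro ⟨h2, h3⟩
      obtain ⟨z, rfl⟩ := Fin.exists_succAbove_eq h3
      exact ⟨z, fun h4 => h2 (by rw [h4]), rfl⟩
    · rintro ⟨z, hz, rfl⟩
      exact ⟨fun h4 => hz (Fin.succAbove_right_injective h4), Fin.succAbove_ne i z⟩
  unfold ee fe
  rw [h1, if_neg hk]

theorem f7 : ∀ j : Fin 6, j = 0 ∨ j = 1 ∨ j = 2 ∨ j = 3 ∨ j = 4 ∨ j = 5 := by decide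

theorem cov_all {n : ℕ} {G : Finset (Finset (Fin n))} (hr : ∀ A ∈ G, A.card = 4) (hK : ¬ HasClique G 4 5)
    (x : Fin 6 → Fin n) : Cov (ee G x 3 4) (ee G x 2 4) (ee G x 1 4) (ee G x 0 4) (ee G x 2 3) (ee G x 1 3) (ee G x 0 3) (ee G x 1 2) (ee G x 0 2) (ee G x 0 1) (ee G x 0 5) (ee G x 1 5) (ee G x 2 5) (ee G x 3 5) (ee G x 4 5) := by
  unfold Cov
  refine ⟨?_, ?_, ?_, ?_, ?_, ?_⟩
  · obtain ⟨j, hj, h⟩ := cov_pos hr hK x 0
    rcases f7 j with rfl | rfl | rfl | rfl | rfl | rfl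
    · exact absurd rfl hj
    · omega
    · omega
    · omega
    · omega
    · omega
  · obtain ⟨j, hj, h⟩ := cov_pos hr hK x 1
    rcases f7 j with rfl | rfl | rfl | rfl | rfl | rfl
    · rw [ee_comm] at h; omega
    · exact absurd rfl hj
    · omega
    · omega
    · omega
    · omega
  · obtain ⟨j, hj, h⟩ := cov_pos hr hK x 2
    rcases f7 j with rfl | rfl | rfl | rfl | rfl | rfl
    · rw [ee_comm] at h; omega
    · rw [ee_comm] at h; omega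
    · exact absurd rfl hj
    · omega
    · omega
    · omega
  · obtain ⟨j, hj, h⟩ := cov_pos hr hK x 3
    rcases f7 j with rfl | rfl | rfl | rfl | rfl | rfl
    · rw [ee_comm] at h; omega
    · rw [ee_comm] at h; omega
    · rw [ee_comm] at h; omega
    · exact absurd rfl hj
    · omega
    · omega
  · obtain ⟨j, hj, h⟩ := cov_pos hr hK x 4
    rcases f7 j with rfl | rfl | rfl | rfl | rfl | rfl
    · rw [ee_comm] at h; omega
    · rw [ee_comm] at h; omega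
    · rw [ee_comm] at h; omega
    · rw [ee_comm] at h; omega
    · exact absurd rfl hj
    · omega
  · obtain ⟨j, hj, h⟩ := cov_pos hr hK x 5
    rcases f7 j with rfl | rfl | rfl | rfl | rfl | rfl
    · rw [ee_comm] at h; omega
    · rw [ee_comm] at h; omega
    · rw [ee_comm] at h; omega
    · rw [ee_comm] at h; omega
    · rw [ee_comm] at h; omega
    · exact absurd rfl hj

theorem sum_le7 {n : ℕ} {G : Finset (Finset (Fin n))} (hr : ∀ A ∈ G, A.card = 4) (hK : ¬ HasClique G 4 5)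
    {w : ℕ → ℕ} (hw : sym5 w = true) {a0 b0 : ℕ}
    (hc : ∀ e34 e24 e14 e04 e23 e13 e03 e12 e02 e01 : ℕ, Bt e34 → Bt e24 → Bt e14 → Bt e04 → Bt e23 → Bt e13 → Bt e03 → Bt e12 → Bt e02 → Bt e01 → tg e34 e24 e14 e04 e23 e13 e03 e12 e02 e01 = 4 → chk7 w a0 b0 e34 e24 e14 e04 e23 e13 e03 e12 e02 e01 = true) :
    (a0 : ℤ) * (n : ℤ) ^ 6 ≤ 6 * ∑ x : Fin 6 → Fin n, g0 G w x
      + b0 * (15 * ∑ x : Fin 6 → Fin n, (ee G x 0 1 : ℤ)) := by
  have h1 : ∀ x : Fin 6 → Fin n, (a0 : ℤ) ≤ (L21 w (ee G x 3 4) (ee G x 2 4) (ee G x 1 4) (ee G x 0 4) (ee G x 2 3) (ee G x 1 3) (ee G x 0 3) (ee G x 1 2) (ee G x 0 2) (ee G x 0 1) (ee G x 0 5) (ee G x 1 5) (ee G x 2 5) (ee G x 3 5) (ee G x 4 5) : ℤ) + b0 * (S21 (ee G x 3 4) (ee G x 2 4) (ee G x 1 4) (ee G x 0 4) (ee G x 2 3) (ee G x 1 3) (ee G x 0 3) (ee G x 1 2) (ee G x 0 2) (ee G x 0 1) (ee G x 0 5) (ee G x 1 5) (ee G x 2 5) (ee G x 3 5) (ee G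 x 4 5) : ℤ) := by
    intro x
    have := all7 hw hc (ee_b G x 3 4) (ee_b G x 2 4) (ee_b G x 1 4) (ee_b G x 0 4) (ee_b G x 2 3) (ee_b G x 1 3) (ee_b G x 0 3) (ee_b G x 1 2) (ee_b G x 0 2) (ee_b G x 0 1) (ee_b G x 3 4) (ee_b G x 2 4) (ee_b G x 1 4) (ee_b G x 0 4) (ee_b G x 2 3) (ee_b G x 1 3) (ee_b G x 0 3) (ee_b G x 1 2) (ee_b G x 0 2) (ee_b G x 0 1) (ee G x 0 5) (ee G x 1 5) (ee G x 2 5) (ee G x 3 5) (ee G x 4 5) (ee_b G x 0 5) (ee_b G x 1 5) (ee_b G x 2 5) (ee_b G x 3 5) (ee_b G x 4 5) (cov_all hr hK x)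
    exact_mod_cast this
  have h2 := sum_le_sum (s := (univ : Finset (Fin 6 → Fin n))) fun x _ => h1 x
  rw [sum_const, card_univ, Fintype.card_fun, Fintype.card_fin, Fintype.card_fin, nsmul_eq_mul, sum_add_distrib,
    ← mul_sum] at h2
  have h3 : ∑ x : Fin 6 → Fin n, (L21 w (ee G x 3 4) (ee G x 2 4) (ee G x 1 4) (ee G x 0 4) (ee G x 2 3) (ee G x 1 3) (ee G x 0 3) (ee G x 1 2) (ee G x 0 2) (ee G x 0 1) (ee G x 0 5) (ee G x 1 5) (ee G x 2 5) (ee G x 3 5) (ee G x 4 5) : ℤ) = 6 * ∑ x : Fin 6 → Fin n, g0 G w x := by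
    unfold L21
    simp only [Nat.add_eq]
    push_cast
    simp only [sum_add_distrib]
    rw [perm_code G w 0 1 2 3 4 5 (by decide), perm_code G w 0 1 2 3 5 4 (by decide), perm_code G w 0 1 2 4 5 3 (by decide), perm_code G w 0 1 3 4 5 2 (by decide), perm_code G w 0 2 3 4 5 1 (by decide), perm_code G w 1 2 3 4 5 0 (by decide)]
    ring
  have h4 : ∑ x : Fin 6 → Fin n, (S21 (ee G x 3 4) (ee G x 2 4) (ee G x 1 4) (ee G x 0 4) (ee G x 2 3) (ee G x 1 3) (ee G x 0 3) (ee G x 1 2) (ee G x 0 2) (ee G x 0 1) (ee G x 0 5) (ee G x 1 5) (ee G x 2 5) (ee G x 3 5) (ee G x 4 5) : ℤ) = 15 * ∑ x : Fin 6 → Fin n, (ee G x 0 1 : ℤ) := by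
    unfold S21
    simp only [Nat.add_eq]
    push_cast
    simp only [sum_add_distrib]
    rw [perm_pair G 3 4 0 1 2 5 (by decide), perm_pair G 2 4 0 1 3 5 (by decide), perm_pair G 1 4 0 2 3 5 (by decide), perm_pair G 0 4 1 2 3 5 (by decide), perm_pair G 2 3 0 1 4 5 (by decide), perm_pair G 1 3 0 2 4 5 (by decide), perm_pair G 0 3 1 2 4 5 (by decide), perm_pair G 1 2 0 3 4 5 (by decide), perm_pair G 0 2 1 3 4 5 (by decide), perm_pair G 0 5 1 2 3 4 (by decide), perm_pair G 1 5 0 2 3 4 (by decide), perm_pair G 2 5 0 1 3 4 (by decide), perm_pair G 3 5 0 1 2 4 (by decide), perm_pair G 4 5 0 1 2 3 (by decide)]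
    ring
  rw [h3, h4] at h2
  push_cast at h2
  linarith

/-- the upper bound for the number of edges -/
theorem card_le7 {n : ℕ} (hn : 0 < n) {G : Finset (Finset (Fin n))} (hr : ∀ A ∈ G, A.card = 4) (hK : ¬ HasClique G 4 5)
    {w : ℕ → ℕ} (hw : sym5 w = true) {a0 b0 : ℕ} {Vn : ℤ}
    (hc : ∀ e34 e24 e14 e04 e23 e13 e03 e12 e02 e01 : ℕ, Bt e34 → Bt e24 → Bt e14 → Bt e04 → Bt e23 → Bt e13 → Bt e03 → Bt e12 → Bt e02 → Bt e01 → tg e34 e24 e14 e04 e23 e13 e03 e12 e02 e01 = 4 → chk7 w a0 b0 e34 e24 e14 e04 e23 e13 e03 e12 e02 e01 = true)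
    (h3 : ∀ E : Fin n → Fin n → Fin n → ℕ, Sy E → 6 * TW E w ≤ Vn * (n : ℤ) ^ 5) :
    90 * (b0 : ℤ) * (24 * G.card) ≤ (6 * Vn - 6 * a0 + 90 * b0) * (n : ℤ) ^ 4 := by
  have h1 := sum_le7 hr hK hw hc
  have h2 : 6 * ∑ x : Fin 6 → Fin n, g0 G w x ≤ Vn * (n : ℤ) ^ 6 := by
    rw [sum_g0, mul_sum]
    calc ∑ p : Fin 1 → Fin n, 6 * TW (lk G p) w ≤ ∑ p : Fin 1 → Fin n, Vn * (n : ℤ) ^ 5 :=
          sum_le_sum fun p _ => h3 _ (lk_Sy G p)
      _ = Vn * (n : ℤ) ^ 6 := by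
          rw [sum_const, card_univ, Fintype.card_fun, Fintype.card_fin, Fintype.card_fin, nsmul_eq_mul]
          push_cast
          ring
  have h4 := orders_le G hr
  have h5 := sum_pair G
  rw [Fintype.card_fin] at h5
  rw [h5] at h1
  set M : ℤ := ∑ y : Fin 4 → Fin n, (fe G (univ.image y) : ℤ) with hM
  have hf : ((Nat.factorial 4 : ℕ) : ℤ) = 24 := by norm_num [Nat.factorial]
  rw [hf] at h4
  have hN : (0 : ℤ) < (n : ℤ) ^ 2 := by
    have : (0 : ℤ) < (n : ℤ) := by exact_mod_cast hn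
    positivity
  have hb : (0 : ℤ) ≤ (b0 : ℤ) * (n : ℤ) ^ 2 := by positivity
  have h6 := mul_le_mul_of_nonneg_left h4 hb
  have h7 : (n : ℤ) ^ 2 * (90 * (b0 : ℤ) * (24 * G.card)) ≤ (n : ℤ) ^ 2 * ((6 * Vn - 6 * a0 + 90 * b0) * (n : ℤ) ^ 4) := by
    have e1 : (n : ℤ) ^ 6 = (n : ℤ) ^ 2 * (n : ℤ) ^ 4 := by ring
    rw [e1] at h1 h2
    linarith
  exact le_of_mul_le_mul_left h7 hN

end Pool.Agent.W843.Lnk.N6s
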